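import Mathlib

/-!
# Rationalizable sets of stable roommates matchings: definitions
-/

set_option autoImplicit false

namespace Pool.Agent.H243R3.SR

/-- A matching on the set of agents `A`: a list of pairwise disjoint pairs of different agents. -/
def IsMatching (A : List ℕ) (M : List (ℕ × ℕ)) : Prop :=
  (M.flatMap fun p => [p.1, p.2]).Nodup ∧ ∀ p ∈ M, p.1 ∈ A ∧ p.2 ∈ A

/-- `a` and `b` are partners in `M`. -/
def Partner (M : List (ℕ × ℕ)) (a b : ℕ) : Prop := (a, b) ∈ M ∨ (b, a) ∈ M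

/-- An instance of the stable roommates problem on the agents `A`: `P a b c` says that the agent
`a` prefers `b` to `c`, and for every agent `a` this is a strict linear order of all other
agents. -/
structure IsInstance (A : List ℕ) (P : ℕ → ℕ → ℕ → Prop) : Prop where
  irrefl : ∀ a ∈ A, ∀ b ∈ A, b ≠ a → ¬ P a b b
  trans : ∀ a ∈ A, ∀ b ∈ A, ∀ c ∈ A, ∀ d ∈ A, b ≠ a → c ≠ a → d ≠ a →
    P a b c → P a c d → P a b d
  total : ∀ a ∈ A, ∀ b ∈ A, ∀ c ∈ A, b ≠ a → c ≠ a → b ≠ c → P a b c ∨ P a c b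

/-- The pair `{a, b}` blocks `M`: it is not in `M`, and each of `a`, `b` is unmatched in `M` or
prefers the other one to its partner in `M`. -/
def Blocks (P : ℕ → ℕ → ℕ → Prop) (M : List (ℕ × ℕ)) (a b : ℕ) : Prop :=
  a ≠ b ∧ ¬ Partner M a b ∧ (∀ c, Partner M a c → P a b c) ∧ ∀ c, Partner M b c → P b a c

/-- `M` is stable: no pair of agents blocks it. -/
def Stable (A : List ℕ) (P : ℕ → ℕ → ℕ → Prop) (M : List (ℕ × ℕ)) : Prop :=
  ∀ a ∈ A, ∀ b ∈ A, ¬ Blocks P M a b

/-- **SR-RATIONALIZABILITY.** The input is a list of different agents and a list of matchings; the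
question is whether some instance of the stable roommates problem has all these matchings among its
stable matchings. -/
def Rationalizable (I : List ℕ × List (List (ℕ × ℕ))) : Prop :=
  I.1.Nodup ∧ (∀ M ∈ I.2, IsMatching I.1 M) ∧
    ∃ P : ℕ → ℕ → ℕ → Prop, IsInstance I.1 P ∧ ∀ M ∈ I.2, Stable I.1 P M

/-- SR-RATIONALIZABILITY for three perfect matchings. -/
def Rationalizable3 (I : List ℕ × List (List (ℕ × ℕ))) : Prop :=
  I.2.length = 3 ∧ (∀ M ∈ I.2, ∀ a ∈ I.1, ∃ b, Partner M a b) ∧ Rationalizable I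

/-! ### Perfect matchings given by involutions -/

section Abs

variable {Λ : Type}

/-- A perfect matching of `V`, as an involution without fixed points. -/
structure PM (V : List Λ) (m : Λ → Λ) : Prop where
  mem : ∀ a ∈ V, m a ∈ V
  inv : ∀ a ∈ V, m (m a) = a
  ne : ∀ a ∈ V, m a ≠ a

/-- The list of the pairs. -/
def ml (V : List Λ) (e : Λ → ℕ) (m : Λ → Λ) : List (ℕ × ℕ) :=
  (V.filter fun a => decide (e a < e (m a))).map fun a => (e a, e (m a))

structure Pref (V : List Λ) (Q : Λ → Λ → Λ → Prop) : Prop where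
  irrefl : ∀ a ∈ V, ∀ b ∈ V, b ≠ a → ¬ Q a b b
  trans : ∀ a ∈ V, ∀ b ∈ V, ∀ c ∈ V, ∀ d ∈ V, b ≠ a → c ≠ a → d ≠ a →
    Q a b c → Q a c d → Q a b d
  total : ∀ a ∈ V, ∀ b ∈ V, ∀ c ∈ V, b ≠ a → c ≠ a → b ≠ c → Q a b c ∨ Q a c b

def St (V : List Λ) (Q : Λ → Λ → Λ → Prop) (m : Λ → Λ) : Prop :=
  ∀ a ∈ V, ∀ b ∈ V, a ≠ b → m a ≠ b → ¬ (Q a b (m a) ∧ Q b a (m b))

variable {V : List Λ} {e : Λ → ℕ} {m : Λ → Λ}

theorem partner_iff (he : Function.Injective e) (hm : PM V m) (x y : ℕ) :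
    Partner (ml V e m) x y ↔ ∃ a ∈ V, x = e a ∧ y = e (m a) := by
  unfold Partner ml
  simp only [List.mem_map, List.mem_filter, decide_eq_true_eq, Prod.mk.injEq]
  constructor
  · rintro (⟨a, ⟨ha, -⟩, h1, h2⟩ | ⟨a, ⟨ha, -⟩, h1, h2⟩)
    · exact ⟨a, ha, h1.symm, h2.symm⟩
    · exact ⟨m a, hm.mem a ha, h2.symm, by rw [hm.inv a ha]; exact h1.symm⟩
  · rintro ⟨a, ha, rfl, rfl⟩
    have hne : e a ≠ e (m a) := fun h => hm.ne a ha (he h).symm
    rcases lt_or_gt_of_ne hne with h | h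
    · exact Or.inl ⟨a, ⟨ha, h⟩, rfl, rfl⟩
    · refine Or.inr ⟨m a, ⟨hm.mem a ha, ?_⟩, rfl, ?_⟩
      · rw [hm.inv a ha]; exact h
      · rw [hm.inv a ha]

theorem isMatching_ml (he : Function.Injective e) (hV : V.Nodup) (hm : PM V m) :
    IsMatching (V.map e) (ml V e m) := by
  refine ⟨?_, ?_⟩
  · unfold ml
    rw [List.flatMap_map, List.nodup_flatMap]
    constructor
    · intro a ha
      have ha' := (List.mem_filter.1 ha).1
      simp only [List.nodup_cons, List.mem_cons, List.not_mem_nil, or_false, not_false_eq_true,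
        List.nodup_nil, and_true]
      exact fun h => hm.ne a ha' (he h).symm
    · refine (hV.filter _).imp_of_mem ?_
      intro a b ha hb hab
      obtain ⟨ha1, ha2⟩ := List.mem_filter.1 ha
      obtain ⟨hb1, hb2⟩ := List.mem_filter.1 hb
      simp only [decide_eq_true_eq] at ha2 hb2
      change List.Disjoint _ _
      simp only [List.disjoint_cons_left, List.disjoint_nil_left, List.mem_cons,
        List.not_mem_nil, or_false, and_true, not_or]
      refine ⟨⟨fun h => hab (he h), fun h => ?_⟩, fun h => ?_, fun h => ?_⟩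
      · have h1 := he h
        rw [h1, hm.inv b hb1] at ha2
        omega
      · have h1 := he h
        rw [← h1, hm.inv a ha1] at hb2
        omega
      · have h1 := he h
        have h2 := congrArg m h1
        rw [hm.inv a ha1, hm.inv b hb1] at h2
        exact hab h2
  · intro p hp
    unfold ml at hp
    obtain ⟨a, ha, rfl⟩ := List.mem_map.1 hp
    have ha' := (List.mem_filter.1 ha).1
    exact ⟨List.mem_map_of_mem ha', List.mem_map_of_mem (hm.mem a ha')⟩

theorem stable_of (he : Function.Injective e) (hm : PM V m) {P : ℕ → ℕ → ℕ → Prop}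
    (h : Stable (V.map e) P (ml V e m)) : St V (fun a b c => P (e a) (e b) (e c)) m := by
  intro a ha b hb hab hmb ⟨h1, h2⟩
  refine h (e a) (List.mem_map_of_mem ha) (e b) (List.mem_map_of_mem hb) ⟨fun h => hab (he h), ?_,
    ?_, ?_⟩
  · rw [partner_iff he hm]
    rintro ⟨c, hc, h3, h4⟩
    rw [← he h3] at h4
    exact hmb (he h4).symm
  · intro c hc
    rw [partner_iff he hm] at hc
    obtain ⟨d, hd, h3, rfl⟩ := hc
    rw [← he h3]
    exact h1
  · intro c hc
    rw [partner_iff he hm] at hc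
    obtain ⟨d, hd, h3, rfl⟩ := hc
    rw [← he h3]
    exact h2

theorem of_stable (he : Function.Injective e) (hm : PM V m) {Q : Λ → Λ → Λ → Prop}
    (h : St V Q m) : Stable (V.map e)
      (fun x y z => ∃ a b c, x = e a ∧ y = e b ∧ z = e c ∧ Q a b c) (ml V e m) := by
  intro x hx y hy hb
  obtain ⟨a, ha, rfl⟩ := List.mem_map.1 hx
  obtain ⟨b, hb', rfl⟩ := List.mem_map.1 hy
  obtain ⟨h1, h2, h3, h4⟩ := hb
  obtain ⟨a1, b1, c1, e1, e2, e3, h5⟩ := h3 (e (m a)) ((partner_iff he hm _ _).2 ⟨a, ha, rfl, rfl⟩)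
  obtain ⟨a2, b2, c2, e4, e5, e6, h6⟩ := h4 (e (m b)) ((partner_iff he hm _ _).2 ⟨b, hb', rfl, rfl⟩)
  have f1 := he e1; have f2 := he e2; have f3 := he e3
  have f4 := he e4; have f5 := he e5; have f6 := he e6
  rw [← f1, ← f2, ← f3] at h5
  rw [← f4, ← f5, ← f6] at h6
  refine h a ha b hb' (fun h => h1 (congrArg e h)) (fun h => h2 ?_) ⟨h5, h6⟩
  rw [partner_iff he hm]
  exact ⟨a, ha, rfl, congrArg e h.symm⟩

/-- **Reduction to involutions.** -/
theorem rat_iff (he : Function.Injective e) (hV : V.Nodup) {m0 m1 m2 : Λ → Λ} (h0 : PM V m0)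
    (h1 : PM V m1) (h2 : PM V m2) :
    Rationalizable (V.map e, [ml V e m0, ml V e m1, ml V e m2]) ↔
      ∃ Q : Λ → Λ → Λ → Prop, Pref V Q ∧ St V Q m0 ∧ St V Q m1 ∧ St V Q m2 := by
  constructor
  · rintro ⟨-, -, P, hP, hS⟩
    refine ⟨fun a b c => P (e a) (e b) (e c), ⟨?_, ?_, ?_⟩, ?_, ?_, ?_⟩
    · intro a ha b hb hab
      exact hP.irrefl _ (List.mem_map_of_mem ha) _ (List.mem_map_of_mem hb) fun h => hab (he h)
    · intro a ha b hb c hc d hd hab hac had h3 h4
      exact hP.trans _ (List.mem_map_of_mem ha) _ (List.mem_map_of_mem hb) _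
        (List.mem_map_of_mem hc) _ (List.mem_map_of_mem hd) (fun h => hab (he h))
        (fun h => hac (he h)) (fun h => had (he h)) h3 h4
    · intro a ha b hb c hc hab hac hbc
      exact hP.total _ (List.mem_map_of_mem ha) _ (List.mem_map_of_mem hb) _
        (List.mem_map_of_mem hc) (fun h => hab (he h)) (fun h => hac (he h)) fun h => hbc (he h)
    · exact stable_of he h0 (hS _ (by simp))
    · exact stable_of he h1 (hS _ (by simp))
    · exact stable_of he h2 (hS _ (by simp))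
  · rintro ⟨Q, hQ, hS0, hS1, hS2⟩
    refine ⟨hV.map he, ?_, fun x y z => ∃ a b c, x = e a ∧ y = e b ∧ z = e c ∧ Q a b c, ⟨?_, ?_, ?_⟩,
      ?_⟩
    · intro M hM
      simp only [List.mem_cons, List.not_mem_nil, or_false] at hM
      rcases hM with rfl | rfl | rfl
      · exact isMatching_ml he hV h0
      · exact isMatching_ml he hV h1
      · exact isMatching_ml he hV h2
    · intro x hx y hy hxy
      obtain ⟨a, ha, rfl⟩ := List.mem_map.1 hx
      obtain ⟨b, hb, rfl⟩ := List.mem_map.1 hy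
      rintro ⟨a', b', c', e1, e2, e3, h⟩
      have f1 := he e1; have f2 := he e2; have f3 := he e3
      rw [← f1, ← f2, ← f3] at h
      exact hQ.irrefl a ha b hb (fun h => hxy (congrArg e h)) h
    · intro x hx y hy z hz w hw hxy hxz hxw
      obtain ⟨a, ha, rfl⟩ := List.mem_map.1 hx
      obtain ⟨b, hb, rfl⟩ := List.mem_map.1 hy
      obtain ⟨c, hc, rfl⟩ := List.mem_map.1 hz
      obtain ⟨d, hd, rfl⟩ := List.mem_map.1 hw
      rintro ⟨a', b', c', e1, e2, e3, h⟩ ⟨a'', c'', d'', e4, e5, e6, h'⟩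
      have f1 := he e1; have f2 := he e2; have f3 := he e3
      have f4 := he e4; have f5 := he e5; have f6 := he e6
      rw [← f1, ← f2, ← f3] at h
      rw [← f4, ← f5, ← f6] at h'
      exact ⟨_, _, _, rfl, rfl, rfl, hQ.trans _ ha _ hb _ hc _ hd (fun h => hxy (congrArg e h))
        (fun h => hxz (congrArg e h)) (fun h => hxw (congrArg e h)) h h'⟩
    · intro x hx y hy z hz hxy hxz hyz
      obtain ⟨a, ha, rfl⟩ := List.mem_map.1 hx
      obtain ⟨b, hb, rfl⟩ := List.mem_map.1 hy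
      obtain ⟨c, hc, rfl⟩ := List.mem_map.1 hz
      rcases hQ.total _ ha _ hb _ hc (fun h => hxy (congrArg e h)) (fun h => hxz (congrArg e h))
        (fun h => hyz (congrArg e h)) with h | h
      · exact Or.inl ⟨_, _, _, rfl, rfl, rfl, h⟩
      · exact Or.inr ⟨_, _, _, rfl, rfl, rfl, h⟩
    · intro M hM
      simp only [List.mem_cons, List.not_mem_nil, or_false] at hM
      rcases hM with rfl | rfl | rfl
      · exact of_stable he h0 hS0
      · exact of_stable he h1 hS1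
      · exact of_stable he h2 hS2

/-- **Alternation.** Along an edge of the first matching exactly one end prefers the first matching
to the second one. -/
theorem alt {Q : Λ → Λ → Λ → Prop} (hQ : Pref V Q) {m m' : Λ → Λ} (hm : PM V m) (hm' : PM V m')
    (hs : St V Q m) (hs' : St V Q m') {a : Λ} (ha : a ∈ V) (hne : m a ≠ m' a) :
    Q (m a) (m (m a)) (m' (m a)) ↔ ¬ Q a (m a) (m' a) := by
  classical
  let D := V.toFinset.filter fun a => m a ≠ m' a
  let Pos := D.filter fun a => Q a (m a) (m' a)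
  let Neg := D.filter fun a => ¬ Q a (m a) (m' a)
  have hD : ∀ {a}, a ∈ D ↔ a ∈ V ∧ m a ≠ m' a := by
    intro a; simp only [D, Finset.mem_filter, List.mem_toFinset]
  have hP : ∀ {a}, a ∈ Pos ↔ a ∈ D ∧ Q a (m a) (m' a) := by
    intro a; simp only [Pos, Finset.mem_filter]
  have hN : ∀ {a}, a ∈ Neg ↔ a ∈ D ∧ ¬ Q a (m a) (m' a) := by
    intro a; simp only [Neg, Finset.mem_filter]
  have dm : ∀ {a}, a ∈ D → m a ∈ D := by
    intro a h
    obtain ⟨h1, h2⟩ := hD.1 h
    refine hD.2 ⟨hm.mem a h1, fun h3 => h2 ?_⟩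
    rw [hm.inv a h1] at h3
    have h4 := congrArg m' h3
    rw [hm'.inv _ (hm.mem a h1)] at h4
    exact h4.symm
  have dm' : ∀ {a}, a ∈ D → m' a ∈ D := by
    intro a h
    obtain ⟨h1, h2⟩ := hD.1 h
    refine hD.2 ⟨hm'.mem a h1, fun h3 => h2 ?_⟩
    rw [hm'.inv a h1] at h3
    have h4 := congrArg m h3
    rw [hm.inv _ (hm'.mem a h1)] at h4
    exact h4.symm
  have p1 : ∀ a ∈ Pos, m a ∈ Neg := by
    intro a h
    obtain ⟨h1, h2⟩ := hP.1 h
    obtain ⟨h3, h4⟩ := hD.1 h1
    refine hN.2 ⟨dm h1, fun h5 => ?_⟩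
    rw [hm.inv a h3] at h5
    exact hs' a h3 (m a) (hm.mem a h3) (hm.ne a h3).symm (fun h => h4 h.symm) ⟨h2, h5⟩
  have p2 : ∀ a ∈ Neg, m' a ∈ Pos := by
    intro a h
    obtain ⟨h1, h2⟩ := hN.1 h
    obtain ⟨h3, h4⟩ := hD.1 h1
    have h5 : Q a (m' a) (m a) := by
      rcases hQ.total a h3 (m a) (hm.mem a h3) (m' a) (hm'.mem a h3) (hm.ne a h3) (hm'.ne a h3) h4
        with h | h
      · exact absurd h h2
      · exact h
    refine hP.2 ⟨dm' h1, ?_⟩
    have hb := hm'.mem a h3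
    obtain ⟨h6, h7⟩ := hD.1 (dm' h1)
    rcases hQ.total (m' a) hb (m (m' a)) (hm.mem _ hb) (m' (m' a)) (hm'.mem _ hb) (hm.ne _ hb)
      (hm'.ne _ hb) h7 with h | h
    · exact h
    · exfalso
      rw [hm'.inv a h3] at h
      exact hs a h3 (m' a) hb (hm'.ne a h3).symm h4 ⟨h5, h⟩
  have i1 : Set.InjOn m Pos := by
    intro a h b h' hab
    have h1 := (hD.1 (hP.1 h).1).1
    have h2 := (hD.1 (hP.1 h').1).1
    have := congrArg m hab
    rwa [hm.inv a h1, hm.inv b h2] at this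
  have i2 : Set.InjOn m' Neg := by
    intro a h b h' hab
    have h1 := (hD.1 (hN.1 h).1).1
    have h2 := (hD.1 (hN.1 h').1).1
    have := congrArg m' hab
    rwa [hm'.inv a h1, hm'.inv b h2] at this
  have c1 : (Pos.image m).card = Pos.card := Finset.card_image_of_injOn i1
  have c2 : (Neg.image m').card = Neg.card := Finset.card_image_of_injOn i2
  have s1 : Pos.image m ⊆ Neg := by
    intro b hb
    obtain ⟨a, h, rfl⟩ := Finset.mem_image.1 hb
    exact p1 a h
  have s2 : Neg.image m' ⊆ Pos := by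
    intro b hb
    obtain ⟨a, h, rfl⟩ := Finset.mem_image.1 hb
    exact p2 a h
  have d1 := Finset.card_le_card s1
  have d2 := Finset.card_le_card s2
  have eq1 : Pos.image m = Neg := Finset.eq_of_subset_of_card_le s1 (by omega)
  have haD : a ∈ D := hD.2 ⟨ha, hne⟩
  constructor
  · intro h h'
    have h1 := p1 a (hP.2 ⟨haD, h'⟩)
    exact (hN.1 h1).2 h
  · intro h
    have h1 : a ∈ Pos.image m := by rw [eq1]; exact hN.2 ⟨haD, h⟩
    obtain ⟨b, hb, rfl⟩ := Finset.mem_image.1 h1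
    have hb' := (hD.1 (hP.1 hb).1).1
    rw [hm.inv b hb']
    exact (hP.1 hb).2

theorem asym {Q : Λ → Λ → Λ → Prop} (hQ : Pref V Q) {a b c : Λ} (ha : a ∈ V) (hb : b ∈ V)
    (hc : c ∈ V) (hba : b ≠ a) (hca : c ≠ a) (hbc : b ≠ c) : Q a c b ↔ ¬ Q a b c := by
  constructor
  · intro h1 h2
    exact hQ.irrefl a ha b hb hba (hQ.trans a ha b hb c hc b hb hba hca hba h2 h1)
  · intro h
    rcases hQ.total a ha b hb c hc hba hca hbc with h1 | h1
    · exact absurd h1 h
    · exact h1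

theorem ne_next {m m' : Λ → Λ} (hm : PM V m) (hm' : PM V m') {a : Λ} (ha : a ∈ V)
    (hne : m a ≠ m' a) : m (m' a) ≠ m' (m' a) := by
  intro h
  rw [hm'.inv a ha] at h
  have h4 := congrArg m h
  rw [hm.inv _ (hm'.mem a ha)] at h4
  exact hne h4.symm

/-- Alternation along an edge of the second matching. -/
theorem alt2 {Q : Λ → Λ → Λ → Prop} (hQ : Pref V Q) {m m' : Λ → Λ} (hm : PM V m) (hm' : PM V m')
    (hs : St V Q m) (hs' : St V Q m') {a : Λ} (ha : a ∈ V) (hne : m a ≠ m' a) :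
    Q (m' a) (m (m' a)) (m' (m' a)) ↔ ¬ Q a (m a) (m' a) := by
  have h1 := alt hQ hm' hm hs' hs ha hne.symm
  have hb := hm'.mem a ha
  have h2 := asym hQ ha (hm.mem a ha) (hm'.mem a ha) (hm.ne a ha) (hm'.ne a ha) hne
  have h3 := asym hQ hb (hm.mem _ hb) (hm'.mem _ hb) (hm.ne _ hb) (hm'.ne _ hb)
    (ne_next hm hm' ha hne)
  rw [h2, h3] at h1
  tauto

end Abs

end Pool.Agent.H243R3.SR
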