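import Pool.Agent.H243R3.SR.To

/-!
# Rationalizable sets of stable roommates matchings: from an assignment to preferences
-/

set_option autoImplicit false

namespace Pool.Agent.H243R3.SR

abbrev Tr : Type := ℕ × ℕ × ℕ

def t3 (x y z : Bool) : Tr := ((!x).toNat + (!y).toNat, x.toNat + (!z).toNat, y.toNat + z.toNat)
def tw (β : Bool) : Tr := (if β then 0 else 2, 1, 1)
def tb (β : Bool) : Tr := (1, 1, if β then 2 else 0)

/-- The three ranks. -/
def RK (w : ℕ → ℕ) (α : ℕ → Bool) (a : Λ) : Tr :=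
  if a.1 = 0 then tw (α a.2.1) else if a.1 = 1 then tw (!α a.2.1)
  else if a.1 = 2 then
    (if a.2.2 % 3 = 0 then t3 (α (w (3 * (a.2.2 / 3)))) (α (w (3 * (a.2.2 / 3))))
        (α (w (3 * (a.2.2 / 3) + 2)))
      else if a.2.2 % 3 = 1 then t3 (!α (w (3 * (a.2.2 / 3) + 1))) (!α (w (3 * (a.2.2 / 3) + 1)))
        (α (w (3 * (a.2.2 / 3) + 2)))
      else t3 (!α (w (3 * (a.2.2 / 3) + 2))) (!α (w (3 * (a.2.2 / 3) + 2)))
        (!α (w (3 * (a.2.2 / 3) + 2))))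
  else if a.1 = 3 then
    (if a.2.2 % 3 = 0 then t3 (!α (w (3 * (a.2.2 / 3)))) (!α (w (3 * (a.2.2 / 3))))
        (!α (w (3 * (a.2.2 / 3) + 2)))
      else if a.2.2 % 3 = 1 then t3 (α (w (3 * (a.2.2 / 3) + 1))) (α (w (3 * (a.2.2 / 3) + 1)))
        (!α (w (3 * (a.2.2 / 3) + 2)))
      else t3 (α (w (3 * (a.2.2 / 3) + 2))) (α (w (3 * (a.2.2 / 3) + 2)))
        (α (w (3 * (a.2.2 / 3) + 2))))
  else if a.1 = 4 then t3 (!α (w (3 * a.2.2))) (α (w (3 * a.2.2 + 1))) (!α (w (3 * a.2.2 + 2)))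
  else if a.1 = 5 then t3 (α (w (3 * a.2.2))) (!α (w (3 * a.2.2 + 1))) (α (w (3 * a.2.2 + 2)))
  else if a.1 = 6 then t3 (α (w (3 * a.2.2))) (α (w (3 * a.2.2 + 2))) (α (w (3 * a.2.2 + 2)))
  else if a.1 = 7 then t3 (!α (w (3 * a.2.2))) (!α (w (3 * a.2.2 + 2))) (!α (w (3 * a.2.2 + 2)))
  else if a.1 = 8 then tb (!α (w (3 * a.2.2 + 2))) else tb (α (w (3 * a.2.2 + 2)))

/-- Alternation of the ranks. -/
def alts (r s0 s1 s2 : Tr) : Prop :=
  (r.1 < r.2.1 → s0.2.1 ≤ s0.1) ∧ (r.1 < r.2.2 → s0.2.2 ≤ s0.1) ∧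
  (r.2.1 < r.1 → s1.1 ≤ s1.2.1) ∧ (r.2.1 < r.2.2 → s1.2.2 ≤ s1.2.1) ∧
  (r.2.2 < r.1 → s2.1 ≤ s2.2.2) ∧ (r.2.2 < r.2.1 → s2.2.1 ≤ s2.2.2) ∧
  r.1 ≤ 2 ∧ r.2.1 ≤ 2 ∧ r.2.2 ≤ 2

instance (r s0 s1 s2 : Tr) : Decidable (alts r s0 s1 s2) := by unfold alts; infer_instance

def dist3 (r : Tr) : Prop := r.1 ≠ r.2.1 ∧ r.1 ≠ r.2.2 ∧ r.2.1 ≠ r.2.2
def distW (r : Tr) : Prop := r.1 ≠ r.2.1 ∧ r.1 ≠ r.2.2 ∧ r.2.1 = r.2.2
def distB (r : Tr) : Prop := r.1 = r.2.1 ∧ r.1 ≠ r.2.2 ∧ r.2.1 ≠ r.2.2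

instance (r : Tr) : Decidable (dist3 r) := by unfold dist3; infer_instance
instance (r : Tr) : Decidable (distW r) := by unfold distW; infer_instance
instance (r : Tr) : Decidable (distB r) := by unfold distB; infer_instance

/-- What we need at the agent `a`. -/
def Good (m : ℕ) (w : ℕ → ℕ) (α : ℕ → Bool) (a : Λ) : Prop :=
  ((RK w α a).1 = (RK w α a).2.1 ↔ f0 w a = f1 (3 * m) a) ∧
  ((RK w α a).1 = (RK w α a).2.2 ↔ f0 w a = f2 (3 * m) a) ∧
  ((RK w α a).2.1 = (RK w α a).2.2 ↔ f1 (3 * m) a = f2 (3 * m) a) ∧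
  alts (RK w α a) (RK w α (f0 w a)) (RK w α (f1 (3 * m) a)) (RK w α (f2 (3 * m) a))

variable {m : ℕ} {w : ℕ → ℕ} {α : ℕ → Bool}

theorem good3 {a b c d : Λ} (h0 : f0 w a = b) (h1 : f1 (3 * m) a = c) (h2 : f2 (3 * m) a = d)
    (hbc : b ≠ c) (hbd : b ≠ d) (hcd : c ≠ d) {r s0 s1 s2 : Tr} (hr : RK w α a = r)
    (hb : RK w α b = s0) (hc : RK w α c = s1) (hd : RK w α d = s2)
    (h : dist3 r ∧ alts r s0 s1 s2) : Good m w α a := by
  unfold Good
  rw [h0, h1, h2, hr, hb, hc, hd]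
  obtain ⟨⟨a1, a2, a3⟩, h5⟩ := h
  exact ⟨⟨fun h => absurd h a1, fun h => absurd h hbc⟩,
    ⟨fun h => absurd h a2, fun h => absurd h hbd⟩, ⟨fun h => absurd h a3, fun h => absurd h hcd⟩, h5⟩

theorem goodW {a b c : Λ} (h0 : f0 w a = b) (h1 : f1 (3 * m) a = c) (h2 : f2 (3 * m) a = c)
    (hbc : b ≠ c) {r s0 s1 : Tr} (hr : RK w α a = r)
    (hb : RK w α b = s0) (hc : RK w α c = s1)
    (h : distW r ∧ alts r s0 s1 s1) : Good m w α a := by
  unfold Good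
  rw [h0, h1, h2, hr, hb, hc]
  obtain ⟨⟨a1, a2, a3⟩, h5⟩ := h
  exact ⟨⟨fun h => absurd h a1, fun h => absurd h hbc⟩,
    ⟨fun h => absurd h a2, fun h => absurd h hbc⟩, ⟨fun _ => rfl, fun _ => a3⟩, h5⟩

theorem goodB {a b c : Λ} (h0 : f0 w a = b) (h1 : f1 (3 * m) a = b) (h2 : f2 (3 * m) a = c)
    (hbc : b ≠ c) {r s0 s1 : Tr} (hr : RK w α a = r)
    (hb : RK w α b = s0) (hc : RK w α c = s1)
    (h : distB r ∧ alts r s0 s0 s1) : Good m w α a := by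
  unfold Good
  rw [h0, h1, h2, hr, hb, hc]
  obtain ⟨⟨a1, a2, a3⟩, h5⟩ := h
  exact ⟨⟨fun _ => rfl, fun _ => a1⟩,
    ⟨fun h => absurd h a2, fun h => absurd h hbc⟩, ⟨fun h => absurd h a3, fun h => absurd h hbc⟩, h5⟩

theorem rL (i t : ℕ) : RK w α (0, i, t) = tw (α i) := by simp [RK]
theorem rR (i t : ℕ) : RK w α (1, i, t) = tw (!α i) := by simp [RK]
theorem rU0 (j : ℕ) : RK w α (2, 0, 3 * j) = t3 (α (w (3 * j))) (α (w (3 * j)))
    (α (w (3 * j + 2))) := by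
  simp [RK]
theorem rV0 (j : ℕ) : RK w α (3, 0, 3 * j) = t3 (!α (w (3 * j))) (!α (w (3 * j)))
    (!α (w (3 * j + 2))) := by
  simp [RK]
theorem rU1 (j : ℕ) : RK w α (2, 0, 3 * j + 1) = t3 (!α (w (3 * j + 1))) (!α (w (3 * j + 1)))
    (α (w (3 * j + 2))) := by
  have h1 : (3 * j + 1) % 3 = 1 := by omega
  have h2 : (3 * j + 1) / 3 = j := by omega
  simp [RK, h1, h2]
theorem rV1 (j : ℕ) : RK w α (3, 0, 3 * j + 1) = t3 (α (w (3 * j + 1))) (α (w (3 * j + 1)))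
    (!α (w (3 * j + 2))) := by
  have h1 : (3 * j + 1) % 3 = 1 := by omega
  have h2 : (3 * j + 1) / 3 = j := by omega
  simp [RK, h1, h2]
theorem rU2 (j : ℕ) : RK w α (2, 0, 3 * j + 2) = t3 (!α (w (3 * j + 2))) (!α (w (3 * j + 2)))
    (!α (w (3 * j + 2))) := by
  have h1 : (3 * j + 2) % 3 = 2 := by omega
  have h2 : (3 * j + 2) / 3 = j := by omega
  simp [RK, h1, h2]
theorem rV2 (j : ℕ) : RK w α (3, 0, 3 * j + 2) = t3 (α (w (3 * j + 2))) (α (w (3 * j + 2)))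
    (α (w (3 * j + 2))) := by
  have h1 : (3 * j + 2) % 3 = 2 := by omega
  have h2 : (3 * j + 2) / 3 = j := by omega
  simp [RK, h1, h2]
theorem r4 (j : ℕ) : RK w α (4, 0, j) = t3 (!α (w (3 * j))) (α (w (3 * j + 1)))
    (!α (w (3 * j + 2))) := by simp [RK]
theorem r5 (j : ℕ) : RK w α (5, 0, j) = t3 (α (w (3 * j))) (!α (w (3 * j + 1)))
    (α (w (3 * j + 2))) := by simp [RK]
theorem r6 (j : ℕ) : RK w α (6, 0, j) = t3 (α (w (3 * j))) (α (w (3 * j + 2)))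
    (α (w (3 * j + 2))) := by simp [RK]
theorem r7 (j : ℕ) : RK w α (7, 0, j) = t3 (!α (w (3 * j))) (!α (w (3 * j + 2)))
    (!α (w (3 * j + 2))) := by simp [RK]
theorem r8 (j : ℕ) : RK w α (8, 0, j) = tb (!α (w (3 * j + 2))) := by simp [RK]
theorem r9 (j : ℕ) : RK w α (9, 0, j) = tb (α (w (3 * j + 2))) := by simp [RK]

/-! ### Finite checks -/

theorem k4 : ∀ A B C : Bool, ¬ (A = B ∧ B = C) → dist3 (t3 (!A) B (!C)) ∧
    alts (t3 (!A) B (!C)) (t3 A (!B) C) (t3 A A C) (t3 (!B) (!B) C) := by decide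
theorem k5 : ∀ A B C : Bool, ¬ (A = B ∧ B = C) → dist3 (t3 A (!B) C) ∧
    alts (t3 A (!B) C) (t3 (!A) B (!C)) (t3 (!A) (!C) (!C)) (t3 B B (!C)) := by decide
theorem k6 : ∀ A C : Bool, dist3 (t3 A C C) ∧
    alts (t3 A C C) (t3 (!A) (!C) (!C)) (t3 (!A) (!A) (!C)) (t3 (!C) (!C) (!C)) := by decide
theorem k7 : ∀ A B C : Bool, dist3 (t3 (!A) (!C) (!C)) ∧
    alts (t3 (!A) (!C) (!C)) (t3 A C C) (t3 A (!B) C) (tb C) := by decide
theorem k8 : ∀ C : Bool, distB (tb (!C)) ∧ alts (tb (!C)) (tb C) (tb C) (t3 C C C) := by decide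
theorem k9 : ∀ A C : Bool, distB (tb C) ∧
    alts (tb C) (tb (!C)) (tb (!C)) (t3 (!A) (!C) (!C)) := by decide
theorem kU0 : ∀ A B C : Bool, dist3 (t3 A A C) ∧
    alts (t3 A A C) (tw (!A)) (t3 (!A) B (!C)) (t3 (!A) (!A) (!C)) := by decide
theorem kU1 : ∀ A B C : Bool, dist3 (t3 (!B) (!B) C) ∧
    alts (t3 (!B) (!B) C) (tw B) (t3 B B (!C)) (t3 (!A) B (!C)) := by decide
theorem kU2 : ∀ A C : Bool, dist3 (t3 (!C) (!C) (!C)) ∧
    alts (t3 (!C) (!C) (!C)) (tw C) (t3 C C C) (t3 A C C) := by decide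
theorem kV0 : ∀ A C : Bool, dist3 (t3 (!A) (!A) (!C)) ∧
    alts (t3 (!A) (!A) (!C)) (tw A) (t3 A C C) (t3 A A C) := by decide
theorem kV1 : ∀ A B C : Bool, dist3 (t3 B B (!C)) ∧
    alts (t3 B B (!C)) (tw (!B)) (t3 (!B) (!B) C) (t3 A (!B) C) := by decide
theorem kV2 : ∀ C : Bool, dist3 (t3 C C C) ∧
    alts (t3 C C C) (tw (!C)) (t3 (!C) (!C) (!C)) (tb (!C)) := by decide
theorem kL : ∀ A : Bool, distW (tw A) ∧ alts (tw A) (tw (!A)) (tw (!A)) (tw (!A)) := by decide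
theorem kL0 : ∀ A C : Bool, distW (tw A) ∧
    alts (tw A) (t3 (!A) (!A) C) (tw (!A)) (tw (!A)) := by decide

theorem good (hw : ∀ t < 3 * m, w t < 3 * m)
    (hα : ∀ j < m, ¬ (α (w (3 * j)) = α (w (3 * j + 1)) ∧ α (w (3 * j + 1)) = α (w (3 * j + 2))))
    (a : Λ) (ha : InV m a) : Good m w α a := by
  obtain ⟨g, i, t⟩ := a
  rcases ha with ⟨h1, h2, h3⟩ | ⟨h1, h2, h3⟩ | ⟨h1, h2, h3, h4⟩ <;> simp only at h1 h2 h3
  · have hp := prv_ne h3
    have hn := nxt_ne h3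
    obtain ⟨j, hj⟩ : ∃ j, t = 3 * j ∨ t = 3 * j + 1 ∨ t = 3 * j + 2 := ⟨t / 3, by omega⟩
    interval_cases g
    · by_cases h : i = w t
      · rcases hj with rfl | rfl | rfl
        · refine goodW (f0_0a w i _ h (by omega)) (e1L _ _ _) (e2L _ _ _) (by simp) (rL _ _)
            (rV0 j) (rR _ _) ?_
          rw [h]
          exact kL0 _ _
        · refine goodW (f0_0b w i _ h (by omega)) (e1L _ _ _) (e2L _ _ _) (by simp) (rL _ _)
            (rU1 j) (rR _ _) ?_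
          rw [h]
          exact kL0 _ _
        · refine goodW (f0_0b w i _ h (by omega)) (e1L _ _ _) (e2L _ _ _) (by simp) (rL _ _)
            (rU2 j) (rR _ _) ?_
          rw [h]
          exact kL0 _ _
      · refine goodW (f0_0c w i _ h) (e1L _ _ _) (e2L _ _ _) ?_ (rL _ _) (rR _ _) (rR _ _) (kL _)
        simp only [ne_eq, Prod.mk.injEq, true_and]
        omega
    · have kk : ∀ A C : Bool, distW (tw (!A)) ∧ alts (tw (!A)) (t3 A A C) (tw A) (tw A) := by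
        decide
      by_cases h : i = w t
      · rcases hj with rfl | rfl | rfl
        · refine goodW (f0_1a w i _ h (by omega)) (e1R _ _ _) (e2R _ _ _) (by simp) (rR _ _)
            (rU0 j) (rL _ _) ?_
          rw [h]
          exact kk _ _
        · refine goodW (f0_1b w i _ h (by omega)) (e1R _ _ _) (e2R _ _ _) (by simp) (rR _ _)
            (rV1 j) (rL _ _) ?_
          rw [h]
          exact kk _ _
        · refine goodW (f0_1b w i _ h (by omega)) (e1R _ _ _) (e2R _ _ _) (by simp) (rR _ _)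
            (rV2 j) (rL _ _) ?_
          rw [h]
          exact kk _ _
      · have kk2 : ∀ A : Bool, distW (tw (!A)) ∧ alts (tw (!A)) (tw A) (tw A) (tw A) := by decide
        refine goodW (f0_1c w i _ h) (e1R _ _ _) (e2R _ _ _) ?_ (rR _ _) (rL _ _) (rL _ _) (kk2 _)
        simp only [ne_eq, Prod.mk.injEq, true_and]
        omega
  · subst h2
    obtain ⟨j, hj⟩ : ∃ j, t = 3 * j ∨ t = 3 * j + 1 ∨ t = 3 * j + 2 := ⟨t / 3, by omega⟩
    rcases h1 with rfl | rfl <;> rcases hj with rfl | rfl | rfl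
    · exact good3 (f0_2a w 0 _ (by omega)) (c := (4, 0, j)) (by simp [f1]) (d := (3, 0, 3 * j))
        (by simp [f2]) (by simp) (by simp) (by simp) (rU0 j) (rR _ _) (r4 j) (rV0 j) (kU0 _ _ _)
    · have e1 : (3 * j + 1) % 3 = 1 := by omega
      have e2 : (3 * j + 1) / 3 = j := by omega
      exact good3 (f0_2b w 0 _ (by omega)) (c := (3, 0, 3 * j + 1)) (by simp [f1, e1])
        (d := (4, 0, j)) (by simp [f2, e1, e2]) (by simp) (by simp) (by simp) (rU1 j) (rL _ _)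
        (rV1 j) (r4 j) (kU1 _ _ _)
    · have e1 : (3 * j + 2) % 3 = 2 := by omega
      have e2 : (3 * j + 2) / 3 = j := by omega
      exact good3 (f0_2b w 0 _ (by omega)) (c := (3, 0, 3 * j + 2)) (by simp [f1, e1])
        (d := (6, 0, j)) (by simp [f2, e1, e2]) (by simp) (by simp) (by simp) (rU2 j) (rL _ _)
        (rV2 j) (r6 j) (kU2 _ _)
    · exact good3 (f0_3a w 0 _ (by omega)) (c := (6, 0, j)) (by simp [f1]) (d := (2, 0, 3 * j))
        (by simp [f2]) (by simp) (by simp) (by simp) (rV0 j) (rL _ _) (r6 j) (rU0 j) (kV0 _ _)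
    · have e1 : (3 * j + 1) % 3 = 1 := by omega
      have e2 : (3 * j + 1) / 3 = j := by omega
      exact good3 (f0_3b w 0 _ (by omega)) (c := (2, 0, 3 * j + 1)) (by simp [f1, e1])
        (d := (5, 0, j)) (by simp [f2, e1, e2]) (by simp) (by simp) (by simp) (rV1 j) (rR _ _)
        (rU1 j) (r5 j) (kV1 _ _ _)
    · have e1 : (3 * j + 2) % 3 = 2 := by omega
      have e2 : (3 * j + 2) / 3 = j := by omega
      exact good3 (f0_3b w 0 _ (by omega)) (c := (2, 0, 3 * j + 2)) (by simp [f1, e1])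
        (d := (8, 0, j)) (by simp [f2, e1, e2]) (by simp) (by simp) (by simp) (rV2 j) (rR _ _)
        (rU2 j) (r8 j) (kV2 _)
  · subst h3
    have hn := hα t h4
    interval_cases g
    · exact good3 (b := (5, 0, t)) (by simp [f0]) (c := (2, 0, 3 * t)) (by simp [f1])
        (d := (2, 0, 3 * t + 1)) (by simp [f2]) (by simp) (by simp) (by simp) (r4 t) (r5 t)
        (rU0 t) (rU1 t) (k4 _ _ _ hn)
    · exact good3 (b := (4, 0, t)) (by simp [f0]) (c := (7, 0, t)) (by simp [f1])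
        (d := (3, 0, 3 * t + 1)) (by simp [f2]) (by simp) (by simp) (by simp) (r5 t) (r4 t)
        (r7 t) (rV1 t) (k5 _ _ _ hn)
    · exact good3 (b := (7, 0, t)) (by simp [f0]) (c := (3, 0, 3 * t)) (by simp [f1])
        (d := (2, 0, 3 * t + 2)) (by simp [f2]) (by simp) (by simp) (by simp) (r6 t) (r7 t)
        (rV0 t) (rU2 t) (k6 _ _)
    · exact good3 (b := (6, 0, t)) (by simp [f0]) (c := (5, 0, t)) (by simp [f1])
        (d := (9, 0, t)) (by simp [f2]) (by simp) (by simp) (by simp) (r7 t) (r6 t)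
        (r5 t) (r9 t) (k7 _ _ _)
    · exact goodB (b := (9, 0, t)) (by simp [f0]) (by simp [f1])
        (c := (3, 0, 3 * t + 2)) (by simp [f2]) (by simp) (r8 t) (r9 t) (rV2 t) (k8 _)
    · exact goodB (b := (8, 0, t)) (by simp [f0]) (by simp [f1])
        (c := (7, 0, t)) (by simp [f2]) (by simp) (r9 t) (r8 t) (r7 t) (k9 _ _)

end Pool.Agent.H243R3.SR
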