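import Pool.Agent.H243R3.SR.Defs

/-!
# Rationalizable sets of stable roommates matchings: the gadget

Agents are triples `(tag, i, t)`:
* tags 0, 1: the agents `L i t`, `R i t` of the wire of the variable `i` at the time `t`;
* tags 2, 3: the agents `U t`, `V t` of the pillow of the occurrence `t`;
* tags 4, ..., 9: the agents `c, d, X, Y, a, b` of the clause `t`.
-/

set_option autoImplicit false

namespace Pool.Agent.H243R3.SR

abbrev Λ : Type := ℕ × ℕ × ℕ

def prv (N t : ℕ) : ℕ := if t = 0 then N - 1 else t - 1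
def nxt (N t : ℕ) : ℕ := if t + 1 < N then t + 1 else 0

def f0 (w : ℕ → ℕ) (a : Λ) : Λ :=
  if a.1 = 0 then (if a.2.1 = w a.2.2 then (if a.2.2 % 3 = 0 then (3, 0, a.2.2) else (2, 0, a.2.2))
    else (1, a.2.1, a.2.2))
  else if a.1 = 1 then (if a.2.1 = w a.2.2 then
    (if a.2.2 % 3 = 0 then (2, 0, a.2.2) else (3, 0, a.2.2)) else (0, a.2.1, a.2.2))
  else if a.1 = 2 then (if a.2.2 % 3 = 0 then (1, w a.2.2, a.2.2) else (0, w a.2.2, a.2.2))
  else if a.1 = 3 then (if a.2.2 % 3 = 0 then (0, w a.2.2, a.2.2) else (1, w a.2.2, a.2.2))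
  else if a.1 = 4 then (5, 0, a.2.2) else if a.1 = 5 then (4, 0, a.2.2)
  else if a.1 = 6 then (7, 0, a.2.2) else if a.1 = 7 then (6, 0, a.2.2)
  else if a.1 = 8 then (9, 0, a.2.2) else (8, 0, a.2.2)

def f1 (N : ℕ) (a : Λ) : Λ :=
  if a.1 = 0 then (1, a.2.1, prv N a.2.2) else if a.1 = 1 then (0, a.2.1, nxt N a.2.2)
  else if a.1 = 2 then (if a.2.2 % 3 = 0 then (4, 0, a.2.2 / 3) else (3, 0, a.2.2))
  else if a.1 = 3 then (if a.2.2 % 3 = 0 then (6, 0, a.2.2 / 3) else (2, 0, a.2.2))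
  else if a.1 = 4 then (2, 0, 3 * a.2.2) else if a.1 = 5 then (7, 0, a.2.2)
  else if a.1 = 6 then (3, 0, 3 * a.2.2) else if a.1 = 7 then (5, 0, a.2.2)
  else if a.1 = 8 then (9, 0, a.2.2) else (8, 0, a.2.2)

def f2 (N : ℕ) (a : Λ) : Λ :=
  if a.1 = 0 then (1, a.2.1, prv N a.2.2) else if a.1 = 1 then (0, a.2.1, nxt N a.2.2)
  else if a.1 = 2 then (if a.2.2 % 3 = 0 then (3, 0, a.2.2) else if a.2.2 % 3 = 1 then
    (4, 0, a.2.2 / 3) else (6, 0, a.2.2 / 3))
  else if a.1 = 3 then (if a.2.2 % 3 = 0 then (2, 0, a.2.2) else if a.2.2 % 3 = 1 then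
    (5, 0, a.2.2 / 3) else (8, 0, a.2.2 / 3))
  else if a.1 = 4 then (2, 0, 3 * a.2.2 + 1) else if a.1 = 5 then (3, 0, 3 * a.2.2 + 1)
  else if a.1 = 6 then (2, 0, 3 * a.2.2 + 2) else if a.1 = 7 then (9, 0, a.2.2)
  else if a.1 = 8 then (3, 0, 3 * a.2.2 + 2) else (7, 0, a.2.2)

/-- The agents. -/
def InV (m : ℕ) (a : Λ) : Prop :=
  (a.1 < 2 ∧ a.2.1 < 3 * m ∧ a.2.2 < 3 * m) ∨ ((a.1 = 2 ∨ a.1 = 3) ∧ a.2.1 = 0 ∧ a.2.2 < 3 * m) ∨
    (4 ≤ a.1 ∧ a.1 < 10 ∧ a.2.1 = 0 ∧ a.2.2 < m)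

/-- The list of the agents. -/
def vl (m : ℕ) : List Λ :=
  ([0, 1] ×ˢ (List.range (3 * m) ×ˢ List.range (3 * m))) ++
    (([2, 3] ×ˢ ([0] ×ˢ List.range (3 * m))) ++ ([4, 5, 6, 7, 8, 9] ×ˢ ([0] ×ˢ List.range m)))

theorem mem_vl {m : ℕ} {a : Λ} : a ∈ vl m ↔ InV m a := by
  obtain ⟨g, i, t⟩ := a
  unfold vl InV
  simp only [List.mem_append, List.mem_product, List.mem_range, List.mem_cons, List.not_mem_nil,
    or_false]
  constructor
  · rintro (⟨h1, h2, h3⟩ | ⟨h1, h2, h3⟩ | ⟨h1, h2, h3⟩)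
    · exact Or.inl ⟨by omega, h2, h3⟩
    · exact Or.inr (Or.inl ⟨h1, h2, h3⟩)
    · exact Or.inr (Or.inr ⟨by omega, by omega, h2, h3⟩)
  · rintro (⟨h1, h2, h3⟩ | ⟨h1, h2, h3⟩ | ⟨h1, h2, h3, h4⟩)
    · exact Or.inl ⟨by omega, h2, h3⟩
    · exact Or.inr (Or.inl ⟨h1, h2, h3⟩)
    · exact Or.inr (Or.inr ⟨by omega, h3, h4⟩)

theorem nodup_vl (m : ℕ) : (vl m).Nodup := by
  unfold vl
  refine List.nodup_append'.2 ⟨?_, List.nodup_append'.2 ⟨?_, ?_, ?_⟩, ?_⟩
  · exact List.Nodup.product (by simp) (List.Nodup.product List.nodup_range List.nodup_range)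
  · exact List.Nodup.product (by simp) (List.Nodup.product (by simp) List.nodup_range)
  · exact List.Nodup.product (by simp) (List.Nodup.product (by simp) List.nodup_range)
  · rintro ⟨g, i, t⟩ h1 h2
    simp only [List.mem_product, List.mem_cons, List.not_mem_nil, or_false] at h1 h2
    omega
  · rintro ⟨g, i, t⟩ h1 h2
    simp only [List.mem_append, List.mem_product, List.mem_cons, List.not_mem_nil, or_false] at h1 h2
    omega

theorem prv_lt {N t : ℕ} (h : t < N) : prv N t < N := by unfold prv; split_ifs <;> omega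
theorem nxt_lt {N t : ℕ} (h : t < N) : nxt N t < N := by unfold nxt; split_ifs <;> omega
theorem nxt_prv {N t : ℕ} (h : t < N) : nxt N (prv N t) = t := by
  unfold nxt prv
  by_cases h0 : t = 0
  · rw [if_pos h0, if_neg (by omega)]
    exact h0.symm
  · rw [if_neg h0, if_pos (by omega)]
    omega
theorem prv_nxt {N t : ℕ} (h : t < N) : prv N (nxt N t) = t := by
  unfold nxt prv
  by_cases h0 : t + 1 < N
  · rw [if_pos h0, if_neg (by omega)]
    omega
  · rw [if_neg h0, if_pos rfl]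
    omega
theorem prv_ne {m t : ℕ} (h : t < 3 * m) : prv (3 * m) t ≠ t := by
  unfold prv; split_ifs <;> omega
theorem nxt_ne {m t : ℕ} (h : t < 3 * m) : nxt (3 * m) t ≠ t := by
  unfold nxt; split_ifs <;> omega

section Ev

variable (w : ℕ → ℕ) (N i t : ℕ)

theorem f0_0a (h : i = w t) (h3 : t % 3 = 0) : f0 w (0, i, t) = (3, 0, t) := by simp [f0, ← h, h3]
theorem f0_0b (h : i = w t) (h3 : t % 3 ≠ 0) : f0 w (0, i, t) = (2, 0, t) := by simp [f0, ← h, h3]
theorem f0_0c (h : i ≠ w t) : f0 w (0, i, t) = (1, i, t) := by simp [f0, h]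
theorem f0_1a (h : i = w t) (h3 : t % 3 = 0) : f0 w (1, i, t) = (2, 0, t) := by simp [f0, ← h, h3]
theorem f0_1b (h : i = w t) (h3 : t % 3 ≠ 0) : f0 w (1, i, t) = (3, 0, t) := by simp [f0, ← h, h3]
theorem f0_1c (h : i ≠ w t) : f0 w (1, i, t) = (0, i, t) := by simp [f0, h]
theorem f0_2a (h3 : t % 3 = 0) : f0 w (2, i, t) = (1, w t, t) := by simp [f0, h3]
theorem f0_2b (h3 : t % 3 ≠ 0) : f0 w (2, i, t) = (0, w t, t) := by simp [f0, h3]
theorem f0_3a (h3 : t % 3 = 0) : f0 w (3, i, t) = (0, w t, t) := by simp [f0, h3]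
theorem f0_3b (h3 : t % 3 ≠ 0) : f0 w (3, i, t) = (1, w t, t) := by simp [f0, h3]

end Ev

theorem pm0 {m : ℕ} {w : ℕ → ℕ} (hw : ∀ t < 3 * m, w t < 3 * m) : PM (vl m) (f0 w) := by
  refine ⟨?_, ?_, ?_⟩
  · intro a ha
    rw [mem_vl] at ha ⊢
    obtain ⟨g, i, t⟩ := a
    unfold InV at ha ⊢
    rcases ha with ⟨h1, h2, h3⟩ | ⟨h1, h2, h3⟩ | ⟨h1, h2, h3, h4⟩ <;> simp only at h1 h2 h3
    · have := hw t h3
      unfold f0
      simp only
      split_ifs <;> simp <;> omega
    · have := hw t h3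
      unfold f0
      simp only
      split_ifs <;> simp <;> omega
    · simp only at h4
      unfold f0
      simp only
      split_ifs <;> simp <;> omega
  · intro a ha
    rw [mem_vl] at ha
    obtain ⟨g, i, t⟩ := a
    unfold InV at ha
    rcases ha with ⟨h1, h2, h3⟩ | ⟨h1, h2, h3⟩ | ⟨h1, h2, h3, h4⟩ <;> simp only at h1 h2 h3
    · interval_cases g
      · by_cases h : i = w t
        · by_cases h5 : t % 3 = 0
          · rw [f0_0a w i t h h5, f0_3a w 0 t h5, h]
          · rw [f0_0b w i t h h5, f0_2b w 0 t h5, h]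
        · rw [f0_0c w i t h, f0_1c w i t h]
      · by_cases h : i = w t
        · by_cases h5 : t % 3 = 0
          · rw [f0_1a w i t h h5, f0_2a w 0 t h5, h]
          · rw [f0_1b w i t h h5, f0_3b w 0 t h5, h]
        · rw [f0_1c w i t h, f0_0c w i t h]
    · subst h2
      rcases h1 with rfl | rfl
      · by_cases h5 : t % 3 = 0
        · rw [f0_2a w 0 t h5, f0_1a w _ t rfl h5]
        · rw [f0_2b w 0 t h5, f0_0b w _ t rfl h5]
      · by_cases h5 : t % 3 = 0
        · rw [f0_3a w 0 t h5, f0_0a w _ t rfl h5]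
        · rw [f0_3b w 0 t h5, f0_1b w _ t rfl h5]
    · subst h3
      interval_cases g <;> rfl
  · intro a ha
    rw [mem_vl] at ha
    obtain ⟨g, i, t⟩ := a
    unfold InV at ha
    rcases ha with ⟨h1, h2, h3⟩ | ⟨h1, h2, h3⟩ | ⟨h1, h2, h3, h4⟩ <;> simp only at h1 h2 h3
    · unfold f0
      simp only
      split_ifs <;> simp <;> omega
    · unfold f0
      simp only
      split_ifs <;> simp <;> omega
    · unfold f0
      simp only
      split_ifs <;> simp <;> omega

theorem pm1 {m : ℕ} : PM (vl m) (f1 (3 * m)) := by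
  refine ⟨?_, ?_, ?_⟩
  · intro a ha
    rw [mem_vl] at ha ⊢
    obtain ⟨g, i, t⟩ := a
    unfold InV at ha ⊢
    rcases ha with ⟨h1, h2, h3⟩ | ⟨h1, h2, h3⟩ | ⟨h1, h2, h3, h4⟩ <;> simp only at h1 h2 h3
    · have := prv_lt h3
      have := nxt_lt h3
      interval_cases g
      · exact Or.inl ⟨by simp [f1], by simpa [f1] using h2, by simpa [f1]⟩
      · exact Or.inl ⟨by simp [f1], by simpa [f1] using h2, by simpa [f1]⟩
    · unfold f1
      simp only
      split_ifs <;> simp <;> omega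
    · simp only at h4
      unfold f1
      simp only
      split_ifs <;> simp <;> omega
  · intro a ha
    rw [mem_vl] at ha
    obtain ⟨g, i, t⟩ := a
    unfold InV at ha
    rcases ha with ⟨h1, h2, h3⟩ | ⟨h1, h2, h3⟩ | ⟨h1, h2, h3, h4⟩ <;> simp only at h1 h2 h3
    · interval_cases g
      · simp [f1, nxt_prv h3]
      · simp [f1, prv_nxt h3]
    · subst h2
      rcases h1 with rfl | rfl
      · by_cases h5 : t % 3 = 0
        · have : 3 * (t / 3) = t := by omega
          simp [f1, h5, this]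
        · simp [f1, h5]
      · by_cases h5 : t % 3 = 0
        · have : 3 * (t / 3) = t := by omega
          simp [f1, h5, this]
        · simp [f1, h5]
    · subst h3
      interval_cases g <;> simp [f1]
  · intro a ha
    rw [mem_vl] at ha
    obtain ⟨g, i, t⟩ := a
    unfold InV at ha
    rcases ha with ⟨h1, h2, h3⟩ | ⟨h1, h2, h3⟩ | ⟨h1, h2, h3, h4⟩ <;> simp only at h1 h2 h3
    · interval_cases g <;> simp [f1]
    · unfold f1
      simp only
      split_ifs <;> simp <;> omega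
    · unfold f1
      simp only
      split_ifs <;> simp <;> omega

theorem pm2 {m : ℕ} : PM (vl m) (f2 (3 * m)) := by
  refine ⟨?_, ?_, ?_⟩
  · intro a ha
    rw [mem_vl] at ha ⊢
    obtain ⟨g, i, t⟩ := a
    unfold InV at ha ⊢
    rcases ha with ⟨h1, h2, h3⟩ | ⟨h1, h2, h3⟩ | ⟨h1, h2, h3, h4⟩ <;> simp only at h1 h2 h3
    · have := prv_lt h3
      have := nxt_lt h3
      interval_cases g
      · exact Or.inl ⟨by simp [f2], by simpa [f2] using h2, by simpa [f2]⟩
      · exact Or.inl ⟨by simp [f2], by simpa [f2] using h2, by simpa [f2]⟩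
    · unfold f2
      simp only
      split_ifs <;> simp <;> omega
    · simp only at h4
      unfold f2
      simp only
      split_ifs <;> simp <;> omega
  · intro a ha
    rw [mem_vl] at ha
    obtain ⟨g, i, t⟩ := a
    unfold InV at ha
    rcases ha with ⟨h1, h2, h3⟩ | ⟨h1, h2, h3⟩ | ⟨h1, h2, h3, h4⟩ <;> simp only at h1 h2 h3
    · interval_cases g
      · simp [f2, nxt_prv h3]
      · simp [f2, prv_nxt h3]
    · subst h2
      have h5 : t % 3 = 0 ∨ t % 3 = 1 ∨ t % 3 = 2 := by omega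
      rcases h1 with rfl | rfl <;> rcases h5 with h5 | h5 | h5
      · simp [f2, h5]
      · have : 3 * (t / 3) + 1 = t := by omega
        simp [f2, h5, this]
      · have : 3 * (t / 3) + 2 = t := by omega
        simp [f2, h5, this]
      · simp [f2, h5]
      · have : 3 * (t / 3) + 1 = t := by omega
        simp [f2, h5, this]
      · have : 3 * (t / 3) + 2 = t := by omega
        simp [f2, h5, this]
    · subst h3
      have e1 : (3 * t + 1) % 3 = 1 := by omega
      have e2 : (3 * t + 1) / 3 = t := by omega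
      have e3 : (3 * t + 2) % 3 = 2 := by omega
      have e4 : (3 * t + 2) / 3 = t := by omega
      interval_cases g <;> simp [f2, e1, e2, e3, e4]
  · intro a ha
    rw [mem_vl] at ha
    obtain ⟨g, i, t⟩ := a
    unfold InV at ha
    rcases ha with ⟨h1, h2, h3⟩ | ⟨h1, h2, h3⟩ | ⟨h1, h2, h3, h4⟩ <;> simp only at h1 h2 h3
    · interval_cases g <;> simp [f2]
    · unfold f2
      simp only
      split_ifs <;> simp <;> omega
    · unfold f2
      simp only
      split_ifs <;> simp <;> omega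

end Pool.Agent.H243R3.SR
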