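import Pool.Agent.H243R3.SR.From

/-!
# Rationalizable sets of stable roommates matchings: correctness of the gadget
-/

set_option autoImplicit false

namespace Pool.Agent.H243R3.SR

/-- The number of an agent. -/
def cd (a : Λ) : ℕ := Nat.pair a.1 (Nat.pair a.2.1 a.2.2)

theorem cd_inj : Function.Injective cd := by
  rintro ⟨a, b, c⟩ ⟨a', b', c'⟩ h
  unfold cd at h
  simp only [Nat.pair_eq_pair] at h
  obtain ⟨rfl, rfl, rfl⟩ := h
  rfl

/-- The rank of `b` for `a`. -/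
def key (m : ℕ) (w : ℕ → ℕ) (α : ℕ → Bool) (a b : Λ) : ℕ :=
  if b = f0 w a then (RK w α a).1 else if b = f1 (3 * m) a then (RK w α a).2.1
  else if b = f2 (3 * m) a then (RK w α a).2.2 else 3 + cd b

variable {m : ℕ} {w : ℕ → ℕ} {α : ℕ → Bool}

theorem key0 (a : Λ) : key m w α a (f0 w a) = (RK w α a).1 := by
  unfold key; rw [if_pos rfl]

theorem key1 {a : Λ} (h : Good m w α a) : key m w α a (f1 (3 * m) a) = (RK w α a).2.1 := by
  unfold key
  by_cases h1 : f1 (3 * m) a = f0 w a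
  · rw [if_pos h1]; exact h.1.2 h1.symm
  · rw [if_neg h1, if_pos rfl]

theorem key2 {a : Λ} (h : Good m w α a) : key m w α a (f2 (3 * m) a) = (RK w α a).2.2 := by
  unfold key
  by_cases h1 : f2 (3 * m) a = f0 w a
  · rw [if_pos h1]; exact h.2.1.2 h1.symm
  · by_cases h2 : f2 (3 * m) a = f1 (3 * m) a
    · rw [if_neg h1, if_pos h2]; exact h.2.2.1.2 h2.symm
    · rw [if_neg h1, if_neg h2, if_pos rfl]

theorem key_cases (a b : Λ) : (b = f0 w a ∧ key m w α a b = (RK w α a).1) ∨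
    (b = f1 (3 * m) a ∧ key m w α a b = (RK w α a).2.1) ∨
    (b = f2 (3 * m) a ∧ key m w α a b = (RK w α a).2.2) ∨ key m w α a b = 3 + cd b := by
  unfold key
  split_ifs with h1 h2 h3
  · exact Or.inl ⟨h1, rfl⟩
  · exact Or.inr (Or.inl ⟨h2, rfl⟩)
  · exact Or.inr (Or.inr (Or.inl ⟨h3, rfl⟩))
  · exact Or.inr (Or.inr (Or.inr rfl))

theorem key_inj {a b c : Λ} (h : Good m w α a) (hk : key m w α a b = key m w α a c) : b = c := by
  obtain ⟨e01, e02, e12, -, -, -, -, -, -, l0, l1, l2⟩ := h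
  rcases key_cases (m := m) (w := w) (α := α) a b with ⟨h1, h2⟩ | ⟨h1, h2⟩ | ⟨h1, h2⟩ | h2 <;>
    rcases key_cases (m := m) (w := w) (α := α) a c with ⟨h3, h4⟩ | ⟨h3, h4⟩ | ⟨h3, h4⟩ | h4 <;>
    rw [h2, h4] at hk
  · rw [h1, h3]
  · rw [h1, h3]; exact e01.1 hk
  · rw [h1, h3]; exact e02.1 hk
  · omega
  · rw [h1, h3]; exact (e01.1 hk.symm).symm
  · rw [h1, h3]
  · rw [h1, h3]; exact e12.1 hk
  · omega
  · rw [h1, h3]; exact (e02.1 hk.symm).symm
  · rw [h1, h3]; exact (e12.1 hk.symm).symm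
  · rw [h1, h3]
  · omega
  · omega
  · omega
  · omega
  · exact cd_inj (by omega)

/-- **From an assignment to preferences.** -/
theorem of_nae (hw : ∀ t < 3 * m, w t < 3 * m)
    (hα : ∀ j < m, ¬ (α (w (3 * j)) = α (w (3 * j + 1)) ∧
      α (w (3 * j + 1)) = α (w (3 * j + 2)))) :
    ∃ Q : Λ → Λ → Λ → Prop, Pref (vl m) Q ∧ St (vl m) Q (f0 w) ∧ St (vl m) Q (f1 (3 * m)) ∧
      St (vl m) Q (f2 (3 * m)) := by
  have hg : ∀ a ∈ vl m, Good m w α a := fun a ha => good hw hα a (mem_vl.1 ha)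
  have P0 := pm0 hw
  have P1 := pm1 (m := m)
  have P2 := pm2 (m := m)
  refine ⟨fun a b c => key m w α a b < key m w α a c, ⟨?_, ?_, ?_⟩, ?_, ?_, ?_⟩
  · intro a _ b _ _ h
    exact lt_irrefl _ h
  · intro a _ b _ c _ d _ _ _ _ h1 h2
    exact lt_trans h1 h2
  · intro a ha b _ c _ _ _ hbc
    exact lt_or_gt_of_ne fun h => hbc (key_inj (hg a ha) h)
  · intro a ha b hb hab hm ⟨h1, h2⟩
    have ga := hg a ha
    have gb := hg b hb
    simp only at h1 h2
    rw [key0] at h1 h2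
    obtain ⟨-, -, -, x01, x02, x10, x12, x20, x21, l0, l1, l2⟩ := ga
    rcases key_cases (m := m) (w := w) (α := α) a b with ⟨h3, h4⟩ | ⟨h3, h4⟩ | ⟨h3, h4⟩ | h4
    · exact hm h3.symm
    · rw [h4] at h1
      have h5 := x10 h1
      have h6 : f1 (3 * m) b = a := by rw [h3]; exact P1.inv a ha
      have h7 := key1 gb
      rw [h6] at h7
      rw [h7] at h2
      rw [← h3] at h5
      omega
    · rw [h4] at h1
      have h5 := x20 h1
      have h6 : f2 (3 * m) b = a := by rw [h3]; exact P2.inv a ha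
      have h7 := key2 gb
      rw [h6] at h7
      rw [h7] at h2
      rw [← h3] at h5
      omega
    · omega
  · intro a ha b hb hab hm ⟨h1, h2⟩
    have ga := hg a ha
    have gb := hg b hb
    simp only at h1 h2
    rw [key1 ga] at h1
    rw [key1 gb] at h2
    obtain ⟨-, -, -, x01, x02, x10, x12, x20, x21, l0, l1, l2⟩ := ga
    rcases key_cases (m := m) (w := w) (α := α) a b with ⟨h3, h4⟩ | ⟨h3, h4⟩ | ⟨h3, h4⟩ | h4
    · rw [h4] at h1
      have h5 := x01 h1
      have h6 : f0 w b = a := by rw [h3]; exact P0.inv a ha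
      have h7 := key0 (m := m) (w := w) (α := α) b
      rw [h6] at h7
      rw [h7] at h2
      rw [← h3] at h5
      omega
    · exact hm h3.symm
    · rw [h4] at h1
      have h5 := x21 h1
      have h6 : f2 (3 * m) b = a := by rw [h3]; exact P2.inv a ha
      have h7 := key2 gb
      rw [h6] at h7
      rw [h7] at h2
      rw [← h3] at h5
      omega
    · omega
  · intro a ha b hb hab hm ⟨h1, h2⟩
    have ga := hg a ha
    have gb := hg b hb
    simp only at h1 h2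
    rw [key2 ga] at h1
    rw [key2 gb] at h2
    obtain ⟨-, -, -, x01, x02, x10, x12, x20, x21, l0, l1, l2⟩ := ga
    rcases key_cases (m := m) (w := w) (α := α) a b with ⟨h3, h4⟩ | ⟨h3, h4⟩ | ⟨h3, h4⟩ | h4
    · rw [h4] at h1
      have h5 := x02 h1
      have h6 : f0 w b = a := by rw [h3]; exact P0.inv a ha
      have h7 := key0 (m := m) (w := w) (α := α) b
      rw [h6] at h7
      rw [h7] at h2
      rw [← h3] at h5
      omega
    · rw [h4] at h1
      have h5 := x12 h1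
      have h6 : f1 (3 * m) b = a := by rw [h3]; exact P1.inv a ha
      have h7 := key1 gb
      rw [h6] at h7
      rw [h7] at h2
      rw [← h3] at h5
      omega
    · exact hm h3.symm
    · omega

/-- The instance. -/
def inst (m : ℕ) (w : ℕ → ℕ) : List ℕ × List (List (ℕ × ℕ)) :=
  ((vl m).map cd, [ml (vl m) cd (f0 w), ml (vl m) cd (f1 (3 * m)), ml (vl m) cd (f2 (3 * m))])

/-- **Correctness of the gadget.** -/
theorem inst_iff (hw : ∀ t < 3 * m, w t < 3 * m) : Rationalizable (inst m w) ↔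
    ∃ α : ℕ → Bool, ∀ j < m, ¬ (α (w (3 * j)) = α (w (3 * j + 1)) ∧
      α (w (3 * j + 1)) = α (w (3 * j + 2))) := by
  unfold inst
  rw [rat_iff cd_inj (nodup_vl m) (pm0 hw) pm1 pm2]
  constructor
  · rintro ⟨Q, hQ, s0, s1, s2⟩
    exact to_nae hw hQ s0 s1 s2
  · rintro ⟨α, hα⟩
    exact of_nae hw hα

/-- The three matchings are perfect. -/
theorem inst_perfect (hw : ∀ t < 3 * m, w t < 3 * m) : (inst m w).2.length = 3 ∧
    ∀ M ∈ (inst m w).2, ∀ a ∈ (inst m w).1, ∃ b, Partner M a b := by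
  refine ⟨rfl, ?_⟩
  intro M hM a ha
  unfold inst at hM ha
  obtain ⟨x, hx, rfl⟩ := List.mem_map.1 ha
  simp only [List.mem_cons, List.not_mem_nil, or_false] at hM
  rcases hM with rfl | rfl | rfl
  · exact ⟨_, (partner_iff cd_inj (pm0 hw) _ _).2 ⟨x, hx, rfl, rfl⟩⟩
  · exact ⟨_, (partner_iff cd_inj pm1 _ _).2 ⟨x, hx, rfl, rfl⟩⟩
  · exact ⟨_, (partner_iff cd_inj pm2 _ _).2 ⟨x, hx, rfl, rfl⟩⟩

end Pool.Agent.H243R3.SR
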