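import Pool.Agent.H243R3.SR.Defs
import Pool.Agent.H118R3.RBMem
import Pool.Agent.H671R2.PolyAuto

/-!
# Rationalizable sets of stable roommates matchings: membership in NP
-/

set_option autoImplicit false

namespace Pool.Agent.NPC.SRR

open Pool.Agent.H243R3.SR Pool.Agent.NPC.H118R3.RB

abbrev W3 : Type := List (ℕ × ℕ × ℕ)

abbrev In : Type := List ℕ × List (List (ℕ × ℕ))

def mtB (A : List ℕ) (M : List (ℕ × ℕ)) : Bool :=
  nodupB (M.flatMap fun p => [p.1, p.2]) && M.all fun p => decide (p.1 ∈ A) && decide (p.2 ∈ A)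

theorem mtB_iff {A : List ℕ} {M : List (ℕ × ℕ)} : mtB A M = true ↔ IsMatching A M := by
  unfold mtB IsMatching
  simp only [Bool.and_eq_true, nodupB_iff, List.all_eq_true, decide_eq_true_eq]

def irB (A : List ℕ) (W : W3) : Bool :=
  A.all fun a => A.all fun b => decide (b = a) || !decide ((a, b, b) ∈ W)

def trB (A : List ℕ) (W : W3) : Bool :=
  A.all fun a => A.all fun b => A.all fun c => A.all fun d =>
    (decide (b = a) || (decide (c = a) || decide (d = a))) ||
      (!decide ((a, b, c) ∈ W) || (!decide ((a, c, d) ∈ W) || decide ((a, b, d) ∈ W)))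

def toB (A : List ℕ) (W : W3) : Bool :=
  A.all fun a => A.all fun b => A.all fun c =>
    (decide (b = a) || (decide (c = a) || decide (b = c))) ||
      (decide ((a, b, c) ∈ W) || decide ((a, c, b) ∈ W))

theorem inst_iffB {A : List ℕ} {W : W3} : (irB A W && (trB A W && toB A W)) = true ↔
    IsInstance A (fun a b c => (a, b, c) ∈ W) := by
  unfold irB trB toB
  simp only [Bool.and_eq_true, List.all_eq_true, Bool.or_eq_true, Bool.not_eq_true',
    decide_eq_true_eq, decide_eq_false_iff_not]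
  constructor
  · rintro ⟨h1, h2, h3⟩
    refine ⟨fun a ha b hb hab h => ?_, fun a ha b hb c hc d hd h4 h5 h6 h7 h8 => ?_,
      fun a ha b hb c hc h4 h5 h6 => ?_⟩
    · rcases h1 a ha b hb with h | h'
      · exact hab h
      · exact h' h
    · rcases h2 a ha b hb c hc d hd with (h | h | h) | (h | h | h)
      · exact absurd h h4
      · exact absurd h h5
      · exact absurd h h6
      · exact absurd h7 h
      · exact absurd h8 h
      · exact h
    · rcases h3 a ha b hb c hc with (h | h | h) | h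
      · exact absurd h h4
      · exact absurd h h5
      · exact absurd h h6
      · exact h
  · rintro ⟨h1, h2, h3⟩
    refine ⟨fun a ha b hb => ?_, fun a ha b hb c hc d hd => ?_, fun a ha b hb c hc => ?_⟩
    · by_cases h : b = a
      · exact Or.inl h
      · exact Or.inr (h1 a ha b hb h)
    · by_cases h4 : b = a
      · exact Or.inl (Or.inl h4)
      by_cases h5 : c = a
      · exact Or.inl (Or.inr (Or.inl h5))
      by_cases h6 : d = a
      · exact Or.inl (Or.inr (Or.inr h6))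
      by_cases h7 : (a, b, c) ∈ W
      · by_cases h8 : (a, c, d) ∈ W
        · exact Or.inr (Or.inr (Or.inr (h2 a ha b hb c hc d hd h4 h5 h6 h7 h8)))
        · exact Or.inr (Or.inr (Or.inl h8))
      · exact Or.inr (Or.inl h7)
    · by_cases h4 : b = a
      · exact Or.inl (Or.inl h4)
      by_cases h5 : c = a
      · exact Or.inl (Or.inr (Or.inl h5))
      by_cases h6 : b = c
      · exact Or.inl (Or.inr (Or.inr h6))
      exact Or.inr (h3 a ha b hb c hc h4 h5 h6)

def halfB (W : W3) (M : List (ℕ × ℕ)) (a b : ℕ) : Bool :=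
  M.all fun p => (!decide (p.1 = a) || decide ((a, b, p.2) ∈ W)) &&
    (!decide (p.2 = a) || decide ((a, b, p.1) ∈ W))

theorem halfB_iff {W : W3} {M : List (ℕ × ℕ)} {a b : ℕ} : halfB W M a b = true ↔
    ∀ c, Partner M a c → (a, b, c) ∈ W := by
  unfold halfB Partner
  simp only [Bool.and_eq_true, List.all_eq_true, Bool.or_eq_true, Bool.not_eq_true',
    decide_eq_true_eq, decide_eq_false_iff_not]
  constructor
  · rintro h c (hc | hc)
    · exact ((h _ hc).1).resolve_left (fun h' => h' rfl)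
    · exact ((h _ hc).2).resolve_left (fun h' => h' rfl)
  · rintro h ⟨x, y⟩ hp
    refine ⟨?_, ?_⟩
    · by_cases hx : x = a
      · subst hx
        exact Or.inr (h y (Or.inl hp))
      · exact Or.inl hx
    · by_cases hy : y = a
      · subst hy
        exact Or.inr (h x (Or.inr hp))
      · exact Or.inl hy

def blB (W : W3) (M : List (ℕ × ℕ)) (a b : ℕ) : Bool :=
  (!decide (a = b) && !(decide ((a, b) ∈ M) || decide ((b, a) ∈ M))) &&
    (halfB W M a b && halfB W M b a)

theorem blB_iff {W : W3} {M : List (ℕ × ℕ)} {a b : ℕ} : blB W M a b = true ↔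
    Blocks (fun a b c => (a, b, c) ∈ W) M a b := by
  unfold blB Blocks
  rw [Bool.and_eq_true, Bool.and_eq_true, Bool.and_eq_true, halfB_iff, halfB_iff]
  unfold Partner
  simp only [Bool.not_eq_true', decide_eq_false_iff_not, Bool.or_eq_false_iff, not_or, ne_eq,
    and_assoc]

def stB (A : List ℕ) (W : W3) (M : List (ℕ × ℕ)) : Bool :=
  A.all fun a => A.all fun b => !blB W M a b

theorem stB_iff {A : List ℕ} {W : W3} {M : List (ℕ × ℕ)} : stB A W M = true ↔
    Stable A (fun a b c => (a, b, c) ∈ W) M := by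
  unfold stB Stable
  simp only [List.all_eq_true, Bool.not_eq_true']
  refine forall_congr' fun a => imp_congr_right fun _ => forall_congr' fun b =>
    imp_congr_right fun _ => ?_
  rw [← blB_iff, Bool.not_eq_true]

/-- The verifier. -/
def ver (x : In × W3) : Bool :=
  (nodupB x.1.1 && x.1.2.all fun M => mtB x.1.1 M) &&
    ((irB x.1.1 x.2 && (trB x.1.1 x.2 && toB x.1.1 x.2)) && x.1.2.all fun M => stB x.1.1 x.2 M)

theorem ver_iff {x : In × W3} : ver x = true ↔ (x.1.1.Nodup ∧ ∀ M ∈ x.1.2, IsMatching x.1.1 M) ∧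
    IsInstance x.1.1 (fun a b c => (a, b, c) ∈ x.2) ∧
    ∀ M ∈ x.1.2, Stable x.1.1 (fun a b c => (a, b, c) ∈ x.2) M := by
  unfold ver
  rw [Bool.and_eq_true, Bool.and_eq_true, Bool.and_eq_true, inst_iffB, nodupB_iff]
  simp only [List.all_eq_true, mtB_iff, stB_iff]

/-- All triples of agents. -/
def cube (I : In) : W3 := I.1 ×ˢ (I.1 ×ˢ I.1)

theorem sz_filter_le {β : Type} [TEnc β] (p : β → Bool) (l : List β) : sz (l.filter p) ≤ sz l := by
  induction l with
  | nil => simp
  | cons a l ih =>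
    rw [List.filter_cons]
    split_ifs
    · rw [sz_list_cons, sz_list_cons]; omega
    · rw [sz_list_cons]; omega

theorem poly_cube : Poly cube := by
  unfold cube
  exact R671.poly_product (Poly.fst Poly.id) (R671.poly_product (Poly.fst Poly.id)
    (Poly.fst Poly.id))

theorem partner_mem {A : List ℕ} {M : List (ℕ × ℕ)} (hM : IsMatching A M) {a b : ℕ}
    (h : Partner M a b) : b ∈ A := by
  rcases h with h | h
  · exact (hM.2 _ h).2
  · exact (hM.2 _ h).1

theorem rat_iff_ver (I : In) : Rationalizable I ↔ ∃ W : W3, sz W ≤ sz (cube I) ∧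
    ver (I, W) = true := by
  classical
  simp only [ver_iff]
  constructor
  · rintro ⟨h1, h2, P, hP, hS⟩
    refine ⟨(cube I).filter fun t => decide (P t.1 t.2.1 t.2.2), sz_filter_le _ _, ⟨h1, h2⟩, ?_, ?_⟩
    all_goals
      have key : ∀ a b c, (a, b, c) ∈ (cube I).filter (fun t => decide (P t.1 t.2.1 t.2.2)) ↔
          (a ∈ I.1 ∧ b ∈ I.1 ∧ c ∈ I.1) ∧ P a b c := by
        intro a b c
        unfold cube
        simp only [List.mem_filter, List.mem_product, decide_eq_true_eq]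
    · refine ⟨?_, ?_, ?_⟩
      · intro a ha b hb hab h
        exact hP.irrefl a ha b hb hab ((key _ _ _).1 h).2
      · intro a ha b hb c hc d hd h3 h4 h5 h6 h7
        exact (key _ _ _).2 ⟨⟨ha, hb, hd⟩, hP.trans a ha b hb c hc d hd h3 h4 h5
          ((key _ _ _).1 h6).2 ((key _ _ _).1 h7).2⟩
      · intro a ha b hb c hc h3 h4 h5
        rcases hP.total a ha b hb c hc h3 h4 h5 with h | h
        · exact Or.inl ((key _ _ _).2 ⟨⟨ha, hb, hc⟩, h⟩)
        · exact Or.inr ((key _ _ _).2 ⟨⟨ha, hc, hb⟩, h⟩)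
    · intro M hM a ha b hb ⟨h3, h4, h5, h6⟩
      exact hS M hM a ha b hb ⟨h3, h4, fun c hc => ((key _ _ _).1 (h5 c hc)).2,
        fun c hc => ((key _ _ _).1 (h6 c hc)).2⟩
  · rintro ⟨W, -, ⟨h1, h2⟩, h3, h4⟩
    exact ⟨h1, h2, _, h3, h4⟩

/-! ### The verifier is polynomial -/

section PV

variable {α : Type} [TEnc α]

theorem poly_mtB {A : α → List ℕ} {M : α → List (ℕ × ℕ)} (hA : Poly A) (hM : Poly M) :
    Poly (fun x => mtB (A x) (M x)) := by
  unfold mtB
  refine Poly.and (poly_nodupB ?_) ?_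
  · exact Poly.flatMap (F := fun _ p => [p.1, p.2]) hM (Poly.cons (Poly.fst (Poly.snd Poly.id))
      (Poly.cons (Poly.snd (Poly.snd Poly.id)) (Poly.const [])))
  · exact Poly.all (p := fun x p => decide (p.1 ∈ A x) && decide (p.2 ∈ A x)) hM
      (Poly.and (Poly.decide_mem (Poly.fst (Poly.snd Poly.id)) (hA.comp (Poly.fst Poly.id)))
        (Poly.decide_mem (Poly.snd (Poly.snd Poly.id)) (hA.comp (Poly.fst Poly.id))))

/-- membership of a triple -/
theorem poly_tm {W : α → W3} {a b c : α → ℕ} (hW : Poly W) (ha : Poly a) (hb : Poly b)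
    (hc : Poly c) : Poly (fun x => decide ((a x, b x, c x) ∈ W x)) :=
  Poly.dec_mem (Poly.pair ha (Poly.pair hb hc)) hW

theorem poly_irB {A : α → List ℕ} {W : α → W3} (hA : Poly A) (hW : Poly W) :
    Poly (fun x => irB (A x) (W x)) := by
  unfold irB
  refine Poly.all (p := fun x a => (A x).all fun b => decide (b = a) ||
    !decide ((a, b, b) ∈ W x)) hA ?_
  refine Poly.all (l := fun y : α × ℕ => A y.1) (p := fun y b => decide (b = y.2) ||
    !decide ((y.2, b, b) ∈ W y.1)) (hA.comp (Poly.fst Poly.id)) ?_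
  have hb : Poly (fun z : (α × ℕ) × ℕ => z.2) := Poly.snd Poly.id
  have ha : Poly (fun z : (α × ℕ) × ℕ => z.1.2) := Poly.snd (Poly.fst Poly.id)
  have hx : Poly (fun z : (α × ℕ) × ℕ => z.1.1) := Poly.fst (Poly.fst Poly.id)
  exact Poly.or (Poly.decide_eq hb ha) (Poly.not (poly_tm (hW.comp hx) ha hb hb))

theorem poly_toB {A : α → List ℕ} {W : α → W3} (hA : Poly A) (hW : Poly W) :
    Poly (fun x => toB (A x) (W x)) := by
  unfold toB
  refine Poly.all (p := fun x a => (A x).all fun b => (A x).all fun c =>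
    (decide (b = a) || (decide (c = a) || decide (b = c))) ||
      (decide ((a, b, c) ∈ W x) || decide ((a, c, b) ∈ W x))) hA ?_
  refine Poly.all (l := fun y : α × ℕ => A y.1) (p := fun y b => (A y.1).all fun c =>
    (decide (b = y.2) || (decide (c = y.2) || decide (b = c))) ||
      (decide ((y.2, b, c) ∈ W y.1) || decide ((y.2, c, b) ∈ W y.1)))
    (hA.comp (Poly.fst Poly.id)) ?_
  refine Poly.all (l := fun y : (α × ℕ) × ℕ => A y.1.1) (p := fun y c =>
    (decide (y.2 = y.1.2) || (decide (c = y.1.2) || decide (y.2 = c))) ||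
      (decide ((y.1.2, y.2, c) ∈ W y.1.1) || decide ((y.1.2, c, y.2) ∈ W y.1.1)))
    (hA.comp (Poly.fst (Poly.fst Poly.id))) ?_
  have hc : Poly (fun z : ((α × ℕ) × ℕ) × ℕ => z.2) := Poly.snd Poly.id
  have hb : Poly (fun z : ((α × ℕ) × ℕ) × ℕ => z.1.2) := Poly.snd (Poly.fst Poly.id)
  have ha : Poly (fun z : ((α × ℕ) × ℕ) × ℕ => z.1.1.2) := Poly.snd (Poly.fst (Poly.fst Poly.id))
  have hx : Poly (fun z : ((α × ℕ) × ℕ) × ℕ => z.1.1.1) := Poly.fst (Poly.fst (Poly.fst Poly.id))
  exact Poly.or (Poly.or (Poly.decide_eq hb ha) (Poly.or (Poly.decide_eq hc ha)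
    (Poly.decide_eq hb hc))) (Poly.or (poly_tm (hW.comp hx) ha hb hc)
      (poly_tm (hW.comp hx) ha hc hb))

theorem poly_trB {A : α → List ℕ} {W : α → W3} (hA : Poly A) (hW : Poly W) :
    Poly (fun x => trB (A x) (W x)) := by
  unfold trB
  refine Poly.all (p := fun x a => (A x).all fun b => (A x).all fun c => (A x).all fun d =>
    (decide (b = a) || (decide (c = a) || decide (d = a))) ||
      (!decide ((a, b, c) ∈ W x) || (!decide ((a, c, d) ∈ W x) || decide ((a, b, d) ∈ W x)))) hA ?_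
  refine Poly.all (l := fun y : α × ℕ => A y.1) (p := fun y b => (A y.1).all fun c =>
    (A y.1).all fun d => (decide (b = y.2) || (decide (c = y.2) || decide (d = y.2))) ||
      (!decide ((y.2, b, c) ∈ W y.1) || (!decide ((y.2, c, d) ∈ W y.1) ||
        decide ((y.2, b, d) ∈ W y.1)))) (hA.comp (Poly.fst Poly.id)) ?_
  refine Poly.all (l := fun y : (α × ℕ) × ℕ => A y.1.1) (p := fun y c => (A y.1.1).all fun d =>
    (decide (y.2 = y.1.2) || (decide (c = y.1.2) || decide (d = y.1.2))) ||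
      (!decide ((y.1.2, y.2, c) ∈ W y.1.1) || (!decide ((y.1.2, c, d) ∈ W y.1.1) ||
        decide ((y.1.2, y.2, d) ∈ W y.1.1)))) (hA.comp (Poly.fst (Poly.fst Poly.id))) ?_
  refine Poly.all (l := fun y : ((α × ℕ) × ℕ) × ℕ => A y.1.1.1) (p := fun y d =>
    (decide (y.1.2 = y.1.1.2) || (decide (y.2 = y.1.1.2) || decide (d = y.1.1.2))) ||
      (!decide ((y.1.1.2, y.1.2, y.2) ∈ W y.1.1.1) || (!decide ((y.1.1.2, y.2, d) ∈ W y.1.1.1) ||
        decide ((y.1.1.2, y.1.2, d) ∈ W y.1.1.1))))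
    (hA.comp (Poly.fst (Poly.fst (Poly.fst Poly.id)))) ?_
  have hd : Poly (fun z : (((α × ℕ) × ℕ) × ℕ) × ℕ => z.2) := Poly.snd Poly.id
  have hc : Poly (fun z : (((α × ℕ) × ℕ) × ℕ) × ℕ => z.1.2) := Poly.snd (Poly.fst Poly.id)
  have hb : Poly (fun z : (((α × ℕ) × ℕ) × ℕ) × ℕ => z.1.1.2) :=
    Poly.snd (Poly.fst (Poly.fst Poly.id))
  have ha : Poly (fun z : (((α × ℕ) × ℕ) × ℕ) × ℕ => z.1.1.1.2) :=
    Poly.snd (Poly.fst (Poly.fst (Poly.fst Poly.id)))
  have hx : Poly (fun z : (((α × ℕ) × ℕ) × ℕ) × ℕ => z.1.1.1.1) :=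
    Poly.fst (Poly.fst (Poly.fst (Poly.fst Poly.id)))
  exact Poly.or (Poly.or (Poly.decide_eq hb ha) (Poly.or (Poly.decide_eq hc ha)
    (Poly.decide_eq hd ha))) (Poly.or (Poly.not (poly_tm (hW.comp hx) ha hb hc))
      (Poly.or (Poly.not (poly_tm (hW.comp hx) ha hc hd)) (poly_tm (hW.comp hx) ha hb hd)))

theorem poly_halfB {W : α → W3} {M : α → List (ℕ × ℕ)} {a b : α → ℕ} (hW : Poly W) (hM : Poly M)
    (ha : Poly a) (hb : Poly b) : Poly (fun x => halfB (W x) (M x) (a x) (b x)) := by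
  unfold halfB
  refine Poly.all (p := fun x p => (!decide (p.1 = a x) || decide ((a x, b x, p.2) ∈ W x)) &&
    (!decide (p.2 = a x) || decide ((a x, b x, p.1) ∈ W x))) hM ?_
  have h1 : Poly (fun z : α × (ℕ × ℕ) => z.2.1) := Poly.fst (Poly.snd Poly.id)
  have h2 : Poly (fun z : α × (ℕ × ℕ) => z.2.2) := Poly.snd (Poly.snd Poly.id)
  have hx : Poly (fun z : α × (ℕ × ℕ) => z.1) := Poly.fst Poly.id
  exact Poly.and (Poly.or (Poly.not (Poly.decide_eq h1 (ha.comp hx)))
    (poly_tm (hW.comp hx) (ha.comp hx) (hb.comp hx) h2))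
    (Poly.or (Poly.not (Poly.decide_eq h2 (ha.comp hx)))
    (poly_tm (hW.comp hx) (ha.comp hx) (hb.comp hx) h1))

theorem poly_blB {W : α → W3} {M : α → List (ℕ × ℕ)} {a b : α → ℕ} (hW : Poly W) (hM : Poly M)
    (ha : Poly a) (hb : Poly b) : Poly (fun x => blB (W x) (M x) (a x) (b x)) := by
  unfold blB
  exact Poly.and (Poly.and (Poly.not (Poly.decide_eq ha hb)) (Poly.not (Poly.or
    (Poly.dec_mem (Poly.pair ha hb) hM) (Poly.dec_mem (Poly.pair hb ha) hM))))
    (Poly.and (poly_halfB hW hM ha hb) (poly_halfB hW hM hb ha))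

theorem poly_stB {A : α → List ℕ} {W : α → W3} {M : α → List (ℕ × ℕ)} (hA : Poly A) (hW : Poly W)
    (hM : Poly M) : Poly (fun x => stB (A x) (W x) (M x)) := by
  unfold stB
  refine Poly.all (p := fun x a => (A x).all fun b => !blB (W x) (M x) a b) hA ?_
  refine Poly.all (l := fun y : α × ℕ => A y.1) (p := fun y b => !blB (W y.1) (M y.1) y.2 b)
    (hA.comp (Poly.fst Poly.id)) ?_
  have hb : Poly (fun z : (α × ℕ) × ℕ => z.2) := Poly.snd Poly.id
  have ha : Poly (fun z : (α × ℕ) × ℕ => z.1.2) := Poly.snd (Poly.fst Poly.id)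
  have hx : Poly (fun z : (α × ℕ) × ℕ => z.1.1) := Poly.fst (Poly.fst Poly.id)
  exact Poly.not (poly_blB (hW.comp hx) (hM.comp hx) ha hb)

end PV

theorem poly_ver : Poly ver := by
  unfold ver
  have hA : Poly (fun x : In × W3 => x.1.1) := Poly.fst (Poly.fst Poly.id)
  have hL : Poly (fun x : In × W3 => x.1.2) := Poly.snd (Poly.fst Poly.id)
  have hW : Poly (fun x : In × W3 => x.2) := Poly.snd Poly.id
  refine Poly.and (Poly.and (poly_nodupB hA) ?_) (Poly.and (Poly.and (poly_irB hA hW)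
    (Poly.and (poly_trB hA hW) (poly_toB hA hW))) ?_)
  · exact Poly.all (p := fun (x : In × W3) M => mtB x.1.1 M) hL
      (poly_mtB (hA.comp (Poly.fst Poly.id)) (Poly.snd Poly.id))
  · exact Poly.all (p := fun (x : In × W3) M => stB x.1.1 x.2 M) hL
      (poly_stB (hA.comp (Poly.fst Poly.id)) (hW.comp (Poly.fst Poly.id)) (Poly.snd Poly.id))

/-- **SR-RATIONALIZABILITY is in NP.** -/
theorem inNP : InNPP Rationalizable := by
  obtain ⟨p, hp⟩ := poly_cube.sz_le
  refine inNPP_of poly_ver p fun I => ?_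
  rw [rat_iff_ver]
  constructor
  · rintro ⟨W, h1, h2⟩
    exact ⟨W, h1.trans (hp I), h2⟩
  · rintro ⟨W, -, h2⟩
    have h3 := ver_iff.1 h2
    exact (rat_iff_ver I).1 ⟨h3.1.1, h3.1.2, _, h3.2.1, h3.2.2⟩

/-- The test for three perfect matchings. -/
def thrB (I : In) : Bool :=
  decide (I.2.length = 3) && I.2.all fun M => I.1.all fun a =>
    M.any fun p => decide (p.1 = a) || decide (p.2 = a)

theorem thrB_iff {I : In} : thrB I = true ↔ I.2.length = 3 ∧
    ∀ M ∈ I.2, ∀ a ∈ I.1, ∃ b, Partner M a b := by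
  unfold thrB Partner
  simp only [Bool.and_eq_true, decide_eq_true_eq, List.all_eq_true, List.any_eq_true,
    Bool.or_eq_true]
  refine and_congr_right fun _ => forall_congr' fun M => imp_congr_right fun _ =>
    forall_congr' fun a => imp_congr_right fun _ => ?_
  constructor
  · rintro ⟨⟨x, y⟩, hp, h | h⟩
    · simp only at h; subst h; exact ⟨y, Or.inl hp⟩
    · simp only at h; subst h; exact ⟨x, Or.inr hp⟩
  · rintro ⟨b, h | h⟩
    · exact ⟨_, h, Or.inl rfl⟩
    · exact ⟨_, h, Or.inr rfl⟩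

theorem poly_thrB : Poly thrB := by
  unfold thrB
  have hA : Poly (fun I : In => I.1) := Poly.fst Poly.id
  have hL : Poly (fun I : In => I.2) := Poly.snd Poly.id
  refine Poly.and (Poly.decide_eq (Poly.length hL) (Poly.const 3)) ?_
  refine Poly.all (p := fun (I : In) M => I.1.all fun a =>
    M.any fun p => decide (p.1 = a) || decide (p.2 = a)) hL ?_
  refine Poly.all (l := fun y : In × List (ℕ × ℕ) => y.1.1) (p := fun y a =>
    y.2.any fun p => decide (p.1 = a) || decide (p.2 = a)) (hA.comp (Poly.fst Poly.id)) ?_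
  refine Poly.any (l := fun z : (In × List (ℕ × ℕ)) × ℕ => z.1.2) (p := fun z p =>
    decide (p.1 = z.2) || decide (p.2 = z.2)) (Poly.snd (Poly.fst Poly.id)) ?_
  exact Poly.or (Poly.decide_eq (Poly.fst (Poly.snd Poly.id)) (Poly.snd (Poly.fst Poly.id)))
    (Poly.decide_eq (Poly.snd (Poly.snd Poly.id)) (Poly.snd (Poly.fst Poly.id)))

/-- **SR-RATIONALIZABILITY for three perfect matchings is in NP.** -/
theorem inNP3 : InNPP Rationalizable3 := by
  obtain ⟨p, hp⟩ := poly_cube.sz_le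
  refine inNPP_of (R := fun x : In × W3 => thrB x.1 && ver x)
    (Poly.and (poly_thrB.comp (Poly.fst Poly.id)) poly_ver) p fun I => ?_
  simp only [Bool.and_eq_true, thrB_iff]
  unfold Rationalizable3
  rw [rat_iff_ver]
  constructor
  · rintro ⟨h1, h2, W, h3, h4⟩
    exact ⟨W, h3.trans (hp I), ⟨h1, h2⟩, h4⟩
  · rintro ⟨W, -, ⟨h1, h2⟩, h4⟩
    have h3 := ver_iff.1 h4
    exact ⟨h1, h2, (rat_iff_ver I).1 ⟨h3.1.1, h3.1.2, _, h3.2.1, h3.2.2⟩⟩

end Pool.Agent.NPC.SRR
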