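import Pool.Agent.H243R3.SR.Main
import Pool.Agent.H648R3.WC.Nae

/-!
# Rationalizable sets of stable roommates matchings: the reduction
-/

set_option autoImplicit false

namespace Pool.Agent.NPC.SRR

open Pool.Agent.H243R3.SR Pool.Agent.NPC.WC648

/-- The occurrences of the variables. -/
def oc (φ : List (NV × NV × NV)) : List NV := φ.flatMap fun c => [c.1, c.2.1, c.2.2]

/-- The first occurrence of a variable. -/
def ix (φ : List (NV × NV × NV)) (v : NV) : ℕ :=
  ((List.range (oc φ).length).filter fun i => decide ((oc φ).getD i (0, 0, false) = v)).head?.getD 0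

/-- The wire of an occurrence. -/
def wx (φ : List (NV × NV × NV)) (t : ℕ) : ℕ := ix φ ((oc φ).getD t (0, 0, false))

theorem oc_length (φ : List (NV × NV × NV)) : (oc φ).length = 3 * φ.length := by
  unfold oc
  rw [List.length_flatMap]
  simp [mul_comm]

theorem oc_cons (c : NV × NV × NV) (φ : List (NV × NV × NV)) :
    oc (c :: φ) = c.1 :: c.2.1 :: c.2.2 :: oc φ := rfl

theorem oc_getD (φ : List (NV × NV × NV)) : ∀ j (hj : j < φ.length),
    (oc φ).getD (3 * j) (0, 0, false) = φ[j].1 ∧ (oc φ).getD (3 * j + 1) (0, 0, false) = φ[j].2.1 ∧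
      (oc φ).getD (3 * j + 2) (0, 0, false) = φ[j].2.2 := by
  induction φ with
  | nil => intro j hj; simp at hj
  | cons c φ ih =>
    intro j hj
    rw [oc_cons]
    cases j with
    | zero => simp
    | succ j =>
      have h := ih j (by simpa using hj)
      have e : 3 * (j + 1) = 3 * j + 1 + 1 + 1 := by ring
      rw [e]
      simp only [List.getD_cons_succ, List.getElem_cons_succ]
      exact h

theorem ix_spec {φ : List (NV × NV × NV)} {v : NV} (hv : ∃ t < (oc φ).length,
    (oc φ).getD t (0, 0, false) = v) :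
    ix φ v < (oc φ).length ∧ (oc φ).getD (ix φ v) (0, 0, false) = v := by
  obtain ⟨t, ht, h⟩ := hv
  unfold ix
  set l := (List.range (oc φ).length).filter fun i =>
    decide ((oc φ).getD i (0, 0, false) = v) with hl
  have hmem : t ∈ l := by
    rw [hl, List.mem_filter, List.mem_range]
    exact ⟨ht, by simpa using h⟩
  have hne : l ≠ [] := fun h0 => by rw [h0] at hmem; exact absurd hmem (List.not_mem_nil)
  obtain ⟨a, l', hal⟩ := List.exists_cons_of_ne_nil hne
  have ha : a ∈ l := by rw [hal]; exact List.mem_cons_self ..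
  rw [hl, List.mem_filter, List.mem_range] at ha
  rw [hal]
  simp only [List.head?_cons, Option.getD_some]
  exact ⟨ha.1, by simpa using ha.2⟩

theorem wx_spec {φ : List (NV × NV × NV)} {t : ℕ} (ht : t < (oc φ).length) :
    wx φ t < (oc φ).length ∧
      (oc φ).getD (wx φ t) (0, 0, false) = (oc φ).getD t (0, 0, false) :=
  ix_spec ⟨t, ht, rfl⟩

theorem nae_iff (φ : List (NV × NV × NV)) : NAE φ ↔ ∃ α : ℕ → Bool, ∀ j < φ.length,
    ¬ (α (wx φ (3 * j)) = α (wx φ (3 * j + 1)) ∧ α (wx φ (3 * j + 1)) = α (wx φ (3 * j + 2))) := by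
  have hN := oc_length φ
  constructor
  · rintro ⟨τ, hτ⟩
    refine ⟨fun i => τ ((oc φ).getD i (0, 0, false)), fun j hj => ?_⟩
    obtain ⟨h0, h1, h2⟩ := oc_getD φ j hj
    have k0 := (wx_spec (φ := φ) (t := 3 * j) (by omega)).2
    have k1 := (wx_spec (φ := φ) (t := 3 * j + 1) (by omega)).2
    have k2 := (wx_spec (φ := φ) (t := 3 * j + 2) (by omega)).2
    simp only [k0, k1, k2, h0, h1, h2]
    exact hτ _ (List.getElem_mem hj)
  · rintro ⟨α, hα⟩
    refine ⟨fun v => α (ix φ v), fun c hc => ?_⟩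
    obtain ⟨j, hj, rfl⟩ := List.getElem_of_mem hc
    obtain ⟨h0, h1, h2⟩ := oc_getD φ j hj
    have h := hα j hj
    unfold wx at h
    rw [h0, h1, h2] at h
    exact h

/-! ### Polynomial time -/

variable {α : Type} [TEnc α]

theorem poly_pairN {f g : α → ℕ} (hf : Poly f) (hg : Poly g) :
    Poly (fun a => Nat.pair (f a) (g a)) := by
  unfold Nat.pair
  exact Poly.ite (Poly.decide_lt hf hg) (Poly.add (Poly.mul hg hg) hf)
    (Poly.add (Poly.add (Poly.mul hf hf) hf) hg)

theorem poly_cd {a : α → Λ} (ha : Poly a) : Poly (fun x => cd (a x)) := by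
  unfold cd
  exact poly_pairN (Poly.fst ha) (poly_pairN (Poly.fst (Poly.snd ha)) (Poly.snd (Poly.snd ha)))

theorem poly_oc : Poly oc := by
  unfold oc
  fun_prop

theorem poly_ix {v : α → NV} {φ : α → List (NV × NV × NV)} (hφ : Poly φ) (hv : Poly v) :
    Poly (fun a => ix (φ a) (v a)) := by
  unfold ix
  refine Poly.head?_getD ?_ 0
  have hL : Poly (fun a => oc (φ a)) := poly_oc.comp hφ
  refine Poly.filter (p := fun a i => decide ((oc (φ a)).getD i (0, 0, false) = v a))
    (Poly.range_length hL) ?_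
  exact Poly.decide_eq (Poly.getD (hL.comp (Poly.fst Poly.id)) (Poly.snd Poly.id) (Poly.const _))
    (hv.comp (Poly.fst Poly.id))

theorem poly_wx {t : α → ℕ} {φ : α → List (NV × NV × NV)} (hφ : Poly φ) (ht : Poly t) :
    Poly (fun a => wx (φ a) (t a)) := by
  unfold wx
  exact poly_ix hφ (Poly.getD (poly_oc.comp hφ) ht (Poly.const _))

theorem poly_f0 {a : α → Λ} {φ : α → List (NV × NV × NV)} (hφ : Poly φ) (ha : Poly a) :
    Poly (fun x => f0 (wx (φ x)) (a x)) := by
  have hw : Poly (fun x => wx (φ x) (a x).2.2) := poly_wx hφ (Poly.snd (Poly.snd ha))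
  have h1 : Poly (fun x => (a x).1) := Poly.fst ha
  have h2 : Poly (fun x => (a x).2.1) := Poly.fst (Poly.snd ha)
  have h3 : Poly (fun x => (a x).2.2) := Poly.snd (Poly.snd ha)
  have hm : Poly (fun x => (a x).2.2 % 3) := Poly.mod h3 (Poly.const 3)
  have tr : ∀ {p q r : α → ℕ}, Poly p → Poly q → Poly r → Poly (fun x => (p x, q x, r x)) :=
    fun hp hq hr => Poly.pair hp (Poly.pair hq hr)
  unfold f0
  refine Poly.ite (Poly.decide_eq h1 (Poly.const 0)) (Poly.ite (Poly.decide_eq h2 hw)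
    (Poly.ite (Poly.decide_eq hm (Poly.const 0)) (tr (Poly.const 3) (Poly.const 0) h3)
      (tr (Poly.const 2) (Poly.const 0) h3)) (tr (Poly.const 1) h2 h3)) ?_
  refine Poly.ite (Poly.decide_eq h1 (Poly.const 1)) (Poly.ite (Poly.decide_eq h2 hw)
    (Poly.ite (Poly.decide_eq hm (Poly.const 0)) (tr (Poly.const 2) (Poly.const 0) h3)
      (tr (Poly.const 3) (Poly.const 0) h3)) (tr (Poly.const 0) h2 h3)) ?_
  refine Poly.ite (Poly.decide_eq h1 (Poly.const 2)) (Poly.ite (Poly.decide_eq hm (Poly.const 0))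
    (tr (Poly.const 1) hw h3) (tr (Poly.const 0) hw h3)) ?_
  refine Poly.ite (Poly.decide_eq h1 (Poly.const 3)) (Poly.ite (Poly.decide_eq hm (Poly.const 0))
    (tr (Poly.const 0) hw h3) (tr (Poly.const 1) hw h3)) ?_
  refine Poly.ite (Poly.decide_eq h1 (Poly.const 4)) (tr (Poly.const 5) (Poly.const 0) h3) ?_
  refine Poly.ite (Poly.decide_eq h1 (Poly.const 5)) (tr (Poly.const 4) (Poly.const 0) h3) ?_
  refine Poly.ite (Poly.decide_eq h1 (Poly.const 6)) (tr (Poly.const 7) (Poly.const 0) h3) ?_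
  refine Poly.ite (Poly.decide_eq h1 (Poly.const 7)) (tr (Poly.const 6) (Poly.const 0) h3) ?_
  exact Poly.ite (Poly.decide_eq h1 (Poly.const 8)) (tr (Poly.const 9) (Poly.const 0) h3)
    (tr (Poly.const 8) (Poly.const 0) h3)

theorem poly_prv {N t : α → ℕ} (hN : Poly N) (ht : Poly t) : Poly (fun x => prv (N x) (t x)) := by
  unfold prv
  exact Poly.ite (Poly.decide_eq ht (Poly.const 0)) (Poly.sub hN (Poly.const 1))
    (Poly.sub ht (Poly.const 1))

theorem poly_nxt {N t : α → ℕ} (hN : Poly N) (ht : Poly t) : Poly (fun x => nxt (N x) (t x)) := by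
  unfold nxt
  exact Poly.ite (Poly.decide_lt (Poly.add ht (Poly.const 1)) hN) (Poly.add ht (Poly.const 1))
    (Poly.const 0)

theorem poly_f1 {a : α → Λ} {N : α → ℕ} (hN : Poly N) (ha : Poly a) :
    Poly (fun x => f1 (N x) (a x)) := by
  have h1 : Poly (fun x => (a x).1) := Poly.fst ha
  have h2 : Poly (fun x => (a x).2.1) := Poly.fst (Poly.snd ha)
  have h3 : Poly (fun x => (a x).2.2) := Poly.snd (Poly.snd ha)
  have hm : Poly (fun x => (a x).2.2 % 3) := Poly.mod h3 (Poly.const 3)
  have hd : Poly (fun x => (a x).2.2 / 3) := Poly.div h3 (Poly.const 3)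
  have h4 : Poly (fun x => 3 * (a x).2.2) := Poly.mul (Poly.const 3) h3
  have tr : ∀ {p q r : α → ℕ}, Poly p → Poly q → Poly r → Poly (fun x => (p x, q x, r x)) :=
    fun hp hq hr => Poly.pair hp (Poly.pair hq hr)
  unfold f1
  refine Poly.ite (Poly.decide_eq h1 (Poly.const 0)) (tr (Poly.const 1) h2 (poly_prv hN h3)) ?_
  refine Poly.ite (Poly.decide_eq h1 (Poly.const 1)) (tr (Poly.const 0) h2 (poly_nxt hN h3)) ?_
  refine Poly.ite (Poly.decide_eq h1 (Poly.const 2)) (Poly.ite (Poly.decide_eq hm (Poly.const 0))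
    (tr (Poly.const 4) (Poly.const 0) hd) (tr (Poly.const 3) (Poly.const 0) h3)) ?_
  refine Poly.ite (Poly.decide_eq h1 (Poly.const 3)) (Poly.ite (Poly.decide_eq hm (Poly.const 0))
    (tr (Poly.const 6) (Poly.const 0) hd) (tr (Poly.const 2) (Poly.const 0) h3)) ?_
  refine Poly.ite (Poly.decide_eq h1 (Poly.const 4)) (tr (Poly.const 2) (Poly.const 0) h4) ?_
  refine Poly.ite (Poly.decide_eq h1 (Poly.const 5)) (tr (Poly.const 7) (Poly.const 0) h3) ?_
  refine Poly.ite (Poly.decide_eq h1 (Poly.const 6)) (tr (Poly.const 3) (Poly.const 0) h4) ?_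
  refine Poly.ite (Poly.decide_eq h1 (Poly.const 7)) (tr (Poly.const 5) (Poly.const 0) h3) ?_
  exact Poly.ite (Poly.decide_eq h1 (Poly.const 8)) (tr (Poly.const 9) (Poly.const 0) h3)
    (tr (Poly.const 8) (Poly.const 0) h3)

theorem poly_f2 {a : α → Λ} {N : α → ℕ} (hN : Poly N) (ha : Poly a) :
    Poly (fun x => f2 (N x) (a x)) := by
  have h1 : Poly (fun x => (a x).1) := Poly.fst ha
  have h2 : Poly (fun x => (a x).2.1) := Poly.fst (Poly.snd ha)
  have h3 : Poly (fun x => (a x).2.2) := Poly.snd (Poly.snd ha)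
  have hm : Poly (fun x => (a x).2.2 % 3) := Poly.mod h3 (Poly.const 3)
  have hd : Poly (fun x => (a x).2.2 / 3) := Poly.div h3 (Poly.const 3)
  have h5 : Poly (fun x => 3 * (a x).2.2 + 1) :=
    Poly.add (Poly.mul (Poly.const 3) h3) (Poly.const 1)
  have h6 : Poly (fun x => 3 * (a x).2.2 + 2) :=
    Poly.add (Poly.mul (Poly.const 3) h3) (Poly.const 2)
  have tr : ∀ {p q r : α → ℕ}, Poly p → Poly q → Poly r → Poly (fun x => (p x, q x, r x)) :=
    fun hp hq hr => Poly.pair hp (Poly.pair hq hr)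
  unfold f2
  refine Poly.ite (Poly.decide_eq h1 (Poly.const 0)) (tr (Poly.const 1) h2 (poly_prv hN h3)) ?_
  refine Poly.ite (Poly.decide_eq h1 (Poly.const 1)) (tr (Poly.const 0) h2 (poly_nxt hN h3)) ?_
  refine Poly.ite (Poly.decide_eq h1 (Poly.const 2)) (Poly.ite (Poly.decide_eq hm (Poly.const 0))
    (tr (Poly.const 3) (Poly.const 0) h3) (Poly.ite (Poly.decide_eq hm (Poly.const 1))
    (tr (Poly.const 4) (Poly.const 0) hd) (tr (Poly.const 6) (Poly.const 0) hd))) ?_
  refine Poly.ite (Poly.decide_eq h1 (Poly.const 3)) (Poly.ite (Poly.decide_eq hm (Poly.const 0))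
    (tr (Poly.const 2) (Poly.const 0) h3) (Poly.ite (Poly.decide_eq hm (Poly.const 1))
    (tr (Poly.const 5) (Poly.const 0) hd) (tr (Poly.const 8) (Poly.const 0) hd))) ?_
  refine Poly.ite (Poly.decide_eq h1 (Poly.const 4)) (tr (Poly.const 2) (Poly.const 0) h5) ?_
  refine Poly.ite (Poly.decide_eq h1 (Poly.const 5)) (tr (Poly.const 3) (Poly.const 0) h5) ?_
  refine Poly.ite (Poly.decide_eq h1 (Poly.const 6)) (tr (Poly.const 2) (Poly.const 0) h6) ?_
  refine Poly.ite (Poly.decide_eq h1 (Poly.const 7)) (tr (Poly.const 9) (Poly.const 0) h3) ?_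
  exact Poly.ite (Poly.decide_eq h1 (Poly.const 8)) (tr (Poly.const 3) (Poly.const 0) h6)
    (tr (Poly.const 7) (Poly.const 0) h3)

theorem poly_vl : Poly (fun φ : List (NV × NV × NV) => vl φ.length) := by
  have hu : UPoly (fun φ : List (NV × NV × NV) => φ.length) := UPoly.length Poly.id
  have hr : Poly (fun φ : List (NV × NV × NV) => List.range φ.length) := hu.range
  have hr3 : Poly (fun φ : List (NV × NV × NV) => List.range (3 * φ.length)) :=
    (UPoly.mul (UPoly.const 3) hu).range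
  unfold vl
  exact Poly.append (R671.poly_product (Poly.const [0, 1]) (R671.poly_product hr3 hr3))
    (Poly.append (R671.poly_product (Poly.const [2, 3]) (R671.poly_product (Poly.const [0]) hr3))
      (R671.poly_product (Poly.const [4, 5, 6, 7, 8, 9]) (R671.poly_product (Poly.const [0]) hr)))

theorem poly_ml {f : List (NV × NV × NV) → Λ → Λ}
    (hf : Poly (fun p : List (NV × NV × NV) × Λ => f p.1 p.2)) :
    Poly (fun φ : List (NV × NV × NV) => ml (vl φ.length) cd (f φ)) := by
  unfold ml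
  have hc : Poly (fun p : List (NV × NV × NV) × Λ => cd p.2) := poly_cd (Poly.snd Poly.id)
  have hcf : Poly (fun p : List (NV × NV × NV) × Λ => cd (f p.1 p.2)) := poly_cd hf
  refine Poly.map (F := fun φ a => (cd a, cd (f φ a))) ?_ (Poly.pair hc hcf)
  exact Poly.filter (p := fun φ a => decide (cd a < cd (f φ a))) poly_vl (Poly.decide_lt hc hcf)

/-- The reduction. -/
def red (φ : List (NV × NV × NV)) : List ℕ × List (List (ℕ × ℕ)) := inst φ.length (wx φ)

theorem poly_red : Poly red := by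
  unfold red inst
  have hN : Poly (fun p : List (NV × NV × NV) × Λ => 3 * p.1.length) :=
    Poly.mul (Poly.const 3) (Poly.length (Poly.fst Poly.id))
  refine Poly.pair ?_ (Poly.cons (poly_ml ?_) (Poly.cons (poly_ml ?_) (Poly.cons (poly_ml ?_)
    (Poly.const []))))
  · exact Poly.map (F := fun _ a => cd a) poly_vl (poly_cd (Poly.snd Poly.id))
  · exact poly_f0 (Poly.fst Poly.id) (Poly.snd Poly.id)
  · exact poly_f1 hN (Poly.snd Poly.id)
  · exact poly_f2 hN (Poly.snd Poly.id)

theorem red_correct (φ : List (NV × NV × NV)) : NAE φ ↔ Rationalizable (red φ) := by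
  unfold red
  rw [inst_iff, nae_iff]
  intro t ht
  rw [← oc_length] at ht ⊢
  exact (wx_spec ht).1

theorem red_correct3 (φ : List (NV × NV × NV)) : NAE φ ↔ Rationalizable3 (red φ) := by
  have h := inst_perfect (m := φ.length) (w := wx φ) (by
    intro t ht
    rw [← oc_length] at ht ⊢
    exact (wx_spec ht).1)
  unfold Rationalizable3
  rw [← red_correct φ]
  exact ⟨fun h' => ⟨h.1, h.2, h'⟩, fun h' => h'.2.2⟩

/-- **SR-RATIONALIZABILITY is NP-hard.** -/
theorem hard : NPHardP Rationalizable := (hardI_NAE.trans poly_red red_correct).toNPHardP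

/-- **SR-RATIONALIZABILITY is NP-hard for three perfect matchings.** -/
theorem hard3 : NPHardP Rationalizable3 := (hardI_NAE.trans poly_red red_correct3).toNPHardP

end Pool.Agent.NPC.SRR
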