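import Pool.Agent.H243R3.SR.Gad

/-!
# Rationalizable sets of stable roommates matchings: from preferences to an assignment
-/

set_option autoImplicit false

namespace Pool.Agent.H243R3.SR

section To

variable {m : ℕ} {w : ℕ → ℕ} {Q : Λ → Λ → Λ → Prop}

def qx (m : ℕ) (w : ℕ → ℕ) (Q : Λ → Λ → Λ → Prop) (a : Λ) : Prop := Q a (f0 w a) (f1 (3 * m) a)
def qy (m : ℕ) (w : ℕ → ℕ) (Q : Λ → Λ → Λ → Prop) (a : Λ) : Prop := Q a (f0 w a) (f2 (3 * m) a)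
def qz (m : ℕ) (Q : Λ → Λ → Λ → Prop) (a : Λ) : Prop := Q a (f1 (3 * m) a) (f2 (3 * m) a)

/-- All what we need. -/
structure Al (m : ℕ) (w : ℕ → ℕ) (Q : Λ → Λ → Λ → Prop) : Prop where
  x0 : ∀ a, InV m a → f0 w a ≠ f1 (3 * m) a → (qx m w Q (f0 w a) ↔ ¬ qx m w Q a)
  x1 : ∀ a, InV m a → f0 w a ≠ f1 (3 * m) a → (qx m w Q (f1 (3 * m) a) ↔ ¬ qx m w Q a)
  y0 : ∀ a, InV m a → f0 w a ≠ f2 (3 * m) a → (qy m w Q (f0 w a) ↔ ¬ qy m w Q a)
  y2 : ∀ a, InV m a → f0 w a ≠ f2 (3 * m) a → (qy m w Q (f2 (3 * m) a) ↔ ¬ qy m w Q a)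
  z1 : ∀ a, InV m a → f1 (3 * m) a ≠ f2 (3 * m) a → (qz m Q (f1 (3 * m) a) ↔ ¬ qz m Q a)
  z2 : ∀ a, InV m a → f1 (3 * m) a ≠ f2 (3 * m) a → (qz m Q (f2 (3 * m) a) ↔ ¬ qz m Q a)

theorem al_of (hw : ∀ t < 3 * m, w t < 3 * m) (hQ : Pref (vl m) Q) (s0 : St (vl m) Q (f0 w))
    (s1 : St (vl m) Q (f1 (3 * m))) (s2 : St (vl m) Q (f2 (3 * m))) : Al m w Q where
  x0 a ha hne := alt hQ (pm0 hw) pm1 s0 s1 (mem_vl.2 ha) hne
  x1 a ha hne := alt2 hQ (pm0 hw) pm1 s0 s1 (mem_vl.2 ha) hne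
  y0 a ha hne := alt hQ (pm0 hw) pm2 s0 s2 (mem_vl.2 ha) hne
  y2 a ha hne := alt2 hQ (pm0 hw) pm2 s0 s2 (mem_vl.2 ha) hne
  z1 a ha hne := alt hQ pm1 pm2 s1 s2 (mem_vl.2 ha) hne
  z2 a ha hne := alt2 hQ pm1 pm2 s1 s2 (mem_vl.2 ha) hne

variable (H : Al m w Q)

theorem inL {m i t : ℕ} (hi : i < 3 * m) (ht : t < 3 * m) : InV m (0, i, t) :=
  Or.inl ⟨by simp, hi, ht⟩
theorem inR {m i t : ℕ} (hi : i < 3 * m) (ht : t < 3 * m) : InV m (1, i, t) :=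
  Or.inl ⟨by simp, hi, ht⟩
theorem inU {m t : ℕ} (ht : t < 3 * m) : InV m (2, 0, t) := Or.inr (Or.inl ⟨Or.inl rfl, rfl, ht⟩)
theorem inW {m t : ℕ} (ht : t < 3 * m) : InV m (3, 0, t) := Or.inr (Or.inl ⟨Or.inr rfl, rfl, ht⟩)
theorem inC {m g j : ℕ} (h1 : 4 ≤ g) (h2 : g < 10) (hj : j < m) : InV m (g, 0, j) :=
  Or.inr (Or.inr ⟨h1, h2, rfl, hj⟩)

theorem e1L (N i t : ℕ) : f1 N (0, i, t) = (1, i, prv N t) := by simp [f1]
theorem e2L (N i t : ℕ) : f2 N (0, i, t) = (1, i, prv N t) := by simp [f2]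
theorem e1R (N i t : ℕ) : f1 N (1, i, t) = (0, i, nxt N t) := by simp [f1]
theorem e2R (N i t : ℕ) : f2 N (1, i, t) = (0, i, nxt N t) := by simp [f2]

theorem xyL (i t : ℕ) : qy m w Q (0, i, t) ↔ qx m w Q (0, i, t) := by
  unfold qx qy; rw [e1L, e2L]
theorem xyR (i t : ℕ) : qy m w Q (1, i, t) ↔ qx m w Q (1, i, t) := by
  unfold qx qy; rw [e1R, e2R]

include H in
theorem pass (hw : ∀ t < 3 * m, w t < 3 * m) {i t : ℕ} (hi : i < 3 * m) (ht : t < 3 * m) :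
    qx m w Q (1, i, t) ↔ ¬ qx m w Q (0, i, t) := by
  have hp := prv_ne ht
  have hn := nxt_ne ht
  by_cases h : i = w t
  · by_cases h3 : t % 3 = 0
    · have a1 := H.y0 (0, i, t) (inL hi ht) (by rw [f0_0a w i t h h3, e2L]; simp)
      rw [f0_0a w i t h h3] at a1
      have e2 : f2 (3 * m) (3, 0, t) = (2, 0, t) := by simp [f2, h3]
      have a2 := H.y2 (3, 0, t) (inW ht) (by rw [f0_3a w 0 t h3, e2]; simp)
      rw [e2] at a2
      have e3 : f2 (3 * m) (2, 0, t) = (3, 0, t) := by simp [f2, h3]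
      have a3 := H.y0 (2, 0, t) (inU ht) (by rw [f0_2a w 0 t h3, e3]; simp)
      rw [f0_2a w 0 t h3, ← h] at a3
      rw [xyL] at a1
      rw [xyR] at a3
      tauto
    · have a1 := H.x0 (0, i, t) (inL hi ht) (by rw [f0_0b w i t h h3, e1L]; simp)
      rw [f0_0b w i t h h3] at a1
      have e2 : f1 (3 * m) (2, 0, t) = (3, 0, t) := by simp [f1, h3]
      have a2 := H.x1 (2, 0, t) (inU ht) (by rw [f0_2b w 0 t h3, e2]; simp)
      rw [e2] at a2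
      have e3 : f1 (3 * m) (3, 0, t) = (2, 0, t) := by simp [f1, h3]
      have a3 := H.x0 (3, 0, t) (inW ht) (by rw [f0_3b w 0 t h3, e3]; simp)
      rw [f0_3b w 0 t h3, ← h] at a3
      tauto
  · have a1 := H.x0 (0, i, t) (inL hi ht) (by
      rw [f0_0c w i t h, e1L]
      simp only [ne_eq, Prod.mk.injEq, true_and]
      omega)
    rw [f0_0c w i t h] at a1
    exact a1

include H in
theorem step (hw : ∀ t < 3 * m, w t < 3 * m) {i t : ℕ} (hi : i < 3 * m) (ht : t < 3 * m) :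
    qx m w Q (0, i, nxt (3 * m) t) ↔ qx m w Q (0, i, t) := by
  have hn := nxt_ne ht
  have a1 := H.x1 (1, i, t) (inR hi ht) (by
    rw [e1R]
    unfold f0
    simp only [one_ne_zero, if_false, if_true]
    split_ifs
    · simp
    · simp
    · simp only [ne_eq, Prod.mk.injEq, true_and]
      omega)
  rw [e1R, pass H hw hi ht] at a1
  tauto

include H in
theorem const (hw : ∀ t < 3 * m, w t < 3 * m) {i : ℕ} (hi : i < 3 * m) : ∀ t, t < 3 * m →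
    (qx m w Q (0, i, t) ↔ qx m w Q (0, i, 0))
  | 0, _ => Iff.rfl
  | t + 1, ht => by
    have h1 := step H hw hi (t := t) (by omega)
    have h2 : nxt (3 * m) t = t + 1 := by unfold nxt; rw [if_pos ht]
    rw [h2] at h1
    rw [h1]
    exact const hw hi t (by omega)

include H in
theorem c0 (hw : ∀ t < 3 * m, w t < 3 * m) {j : ℕ} (hj : j < m) :
    qx m w Q (4, 0, j) ↔ ¬ qx m w Q (0, w (3 * j), 3 * j) := by
  have ht : 3 * j < 3 * m := by omega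
  have h3 : 3 * j % 3 = 0 := by omega
  have e1 : f1 (3 * m) (2, 0, 3 * j) = (4, 0, j) := by simp [f1]
  have hne : f0 w (2, 0, 3 * j) ≠ f1 (3 * m) (2, 0, 3 * j) := by
    rw [f0_2a w 0 _ h3, e1]; simp
  have a1 := H.x0 (2, 0, 3 * j) (inU ht) hne
  have a2 := H.x1 (2, 0, 3 * j) (inU ht) hne
  rw [f0_2a w 0 _ h3] at a1
  rw [e1] at a2
  have a3 := pass H hw (hw _ ht) ht
  tauto

include H in
theorem c1 (hw : ∀ t < 3 * m, w t < 3 * m) {j : ℕ} (hj : j < m) :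
    qy m w Q (4, 0, j) ↔ qx m w Q (0, w (3 * j + 1), 3 * j + 1) := by
  have ht : 3 * j + 1 < 3 * m := by omega
  have h3 : (3 * j + 1) % 3 = 1 := by omega
  have h3' : (3 * j + 1) % 3 ≠ 0 := by omega
  have h4 : (3 * j + 1) / 3 = j := by omega
  have e2 : f2 (3 * m) (2, 0, 3 * j + 1) = (4, 0, j) := by simp [f2, h3, h4]
  have a1 := H.y0 (0, w (3 * j + 1), 3 * j + 1) (inL (hw _ ht) ht)
    (by rw [f0_0b w _ _ rfl h3', e2L]; simp)
  rw [f0_0b w _ _ rfl h3'] at a1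
  have a2 := H.y2 (2, 0, 3 * j + 1) (inU ht) (by rw [f0_2b w 0 _ h3', e2]; simp)
  rw [e2] at a2
  rw [xyL] at a1
  tauto

include H in
theorem c2 (hw : ∀ t < 3 * m, w t < 3 * m) {j : ℕ} (hj : j < m) :
    qz m Q (4, 0, j) ↔ ¬ qx m w Q (0, w (3 * j + 2), 3 * j + 2) := by
  have ht : 3 * j + 2 < 3 * m := by omega
  have h3 : (3 * j + 2) % 3 = 2 := by omega
  have h3' : (3 * j + 2) % 3 ≠ 0 := by omega
  have h3'' : (3 * j + 2) % 3 ≠ 1 := by omega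
  have h4 : (3 * j + 2) / 3 = j := by omega
  have ht0 : 3 * j < 3 * m := by omega
  have h30 : 3 * j % 3 = 0 := by omega
  have a0 := pass H hw (hw _ ht) ht
  -- V2
  have v1 : f1 (3 * m) (3, 0, 3 * j + 2) = (2, 0, 3 * j + 2) := by simp [f1, h3]
  have v2 : f2 (3 * m) (3, 0, 3 * j + 2) = (8, 0, j) := by simp [f2, h3, h4]
  have u2 : f2 (3 * m) (2, 0, 3 * j + 2) = (6, 0, j) := by simp [f2, h3, h4]
  have u1 : f1 (3 * m) (2, 0, 3 * j + 2) = (3, 0, 3 * j + 2) := by simp [f1, h3]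
  have x1 : f1 (3 * m) (6, 0, j) = (3, 0, 3 * j) := by simp [f1]
  have x2 : f2 (3 * m) (6, 0, j) = (2, 0, 3 * j + 2) := by simp [f2]
  have w1 : f1 (3 * m) (3, 0, 3 * j) = (6, 0, j) := by simp [f1]
  have w2 : f2 (3 * m) (3, 0, 3 * j) = (2, 0, 3 * j) := by simp [f2]
  have t1 : f1 (3 * m) (2, 0, 3 * j) = (4, 0, j) := by simp [f1]
  have t2 : f2 (3 * m) (2, 0, 3 * j) = (3, 0, 3 * j) := by simp [f2]
  have a1 := H.y0 (1, w (3 * j + 2), 3 * j + 2) (inR (hw _ ht) ht)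
    (by rw [f0_1b w _ _ rfl h3', e2R]; simp)
  rw [f0_1b w _ _ rfl h3', xyR] at a1
  have a2 := H.y2 (3, 0, 3 * j + 2) (inW ht) (by rw [f0_3b w 0 _ h3', v2]; simp)
  rw [v2] at a2
  have a3 : qy m w Q (8, 0, j) ↔ qz m Q (8, 0, j) := by
    unfold qy qz
    have e : f0 w (8, 0, j) = f1 (3 * m) (8, 0, j) := by simp [f0, f1]
    rw [e]
  have a4 := H.z2 (3, 0, 3 * j + 2) (inW ht) (by rw [v1, v2]; simp)
  rw [v2] at a4
  have a5 := H.z1 (3, 0, 3 * j + 2) (inW ht) (by rw [v1, v2]; simp)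
  rw [v1] at a5
  have a6 := H.z2 (2, 0, 3 * j + 2) (inU ht) (by rw [u1, u2]; simp)
  rw [u2] at a6
  have a7 := H.z1 (6, 0, j) (inC (by omega) (by omega) hj) (by rw [x1, x2]; simp)
  rw [x1] at a7
  have a8 := H.z2 (3, 0, 3 * j) (inW ht0) (by rw [w1, w2]; simp)
  rw [w2] at a8
  have a9 := H.z1 (2, 0, 3 * j) (inU ht0) (by rw [t1, t2]; simp)
  rw [t1] at a9
  have k1 : ¬ qz m Q (3, 0, 3 * j + 2) ↔ ¬ qx m w Q (0, w (3 * j + 2), 3 * j + 2) := by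
    rw [← a4, ← a3, a2, a1, a0, not_not]
  rw [a9, a8, a7, a6, a5, not_not, not_not]
  exact k1

/-- **From preferences to an assignment.** -/
theorem to_nae (hw : ∀ t < 3 * m, w t < 3 * m) (hQ : Pref (vl m) Q) (s0 : St (vl m) Q (f0 w))
    (s1 : St (vl m) Q (f1 (3 * m))) (s2 : St (vl m) Q (f2 (3 * m))) :
    ∃ α : ℕ → Bool, ∀ j < m, ¬ (α (w (3 * j)) = α (w (3 * j + 1)) ∧
      α (w (3 * j + 1)) = α (w (3 * j + 2))) := by
  classical
  have H := al_of hw hQ s0 s1 s2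
  refine ⟨fun i => decide (qx m w Q (0, i, 0)), fun j hj hb => ?_⟩
  have t0 : 3 * j < 3 * m := by omega
  have t1 : 3 * j + 1 < 3 * m := by omega
  have t2 : 3 * j + 2 < 3 * m := by omega
  have k0 := const H hw (hw _ t0) _ t0
  have k1 := const H hw (hw _ t1) _ t1
  have k2 := const H hw (hw _ t2) _ t2
  have b0 := c0 H hw hj
  have b1 := c1 H hw hj
  have b2 := c2 H hw hj
  rw [k0] at b0
  rw [k1] at b1
  rw [k2] at b2
  simp only [decide_eq_decide] at hb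
  obtain ⟨hb1, hb2⟩ := hb
  have ca : ((4, 0, j) : Λ) ∈ vl m := mem_vl.2 (inC (by omega) (by omega) hj)
  have cd : ((5, 0, j) : Λ) ∈ vl m := mem_vl.2 (inC (by omega) (by omega) hj)
  have cu : ((2, 0, 3 * j) : Λ) ∈ vl m := mem_vl.2 (inU t0)
  have cv : ((2, 0, 3 * j + 1) : Λ) ∈ vl m := mem_vl.2 (inU t1)
  have e0 : f0 w (4, 0, j) = (5, 0, j) := by simp [f0]
  have e1 : f1 (3 * m) (4, 0, j) = (2, 0, 3 * j) := by simp [f1]
  have e2 : f2 (3 * m) (4, 0, j) = (2, 0, 3 * j + 1) := by simp [f2]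
  unfold qx at b0
  unfold qy at b1
  unfold qz at b2
  rw [e0, e1] at b0
  rw [e0, e2] at b1
  rw [e1, e2] at b2
  have n1 : ((5, 0, j) : Λ) ≠ (4, 0, j) := by simp
  have n2 : ((2, 0, 3 * j) : Λ) ≠ (4, 0, j) := by simp
  have n3 : ((2, 0, 3 * j + 1) : Λ) ≠ (4, 0, j) := by simp
  have s01 := asym hQ ca cd cu n1 n2 (by simp)
  have s02 := asym hQ ca cd cv n1 n3 (by simp)
  have s12 := asym hQ ca cu cv n2 n3 (by simp)
  have r1 := hQ.trans _ ca _ cu _ cd _ cv n2 n1 n3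
  have r2 := hQ.trans _ ca _ cd _ cu _ cv n1 n2 n3
  by_cases hx : qx m w Q (0, w (3 * j), 0)
  · have hy := hb1.1 hx
    have hz := hb2.1 hy
    have g0 : ¬ Q (4, 0, j) (5, 0, j) (2, 0, 3 * j) := fun h => (b0.1 h) hx
    have g1 : Q (4, 0, j) (5, 0, j) (2, 0, 3 * j + 1) := b1.2 hy
    have g2 : ¬ Q (4, 0, j) (2, 0, 3 * j) (2, 0, 3 * j + 1) := fun h => (b2.1 h) hz
    exact g2 (r1 (s01.2 g0) g1)
  · have hy : ¬ qx m w Q (0, w (3 * j + 1), 0) := fun h => hx (hb1.2 h)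
    have hz : ¬ qx m w Q (0, w (3 * j + 2), 0) := fun h => hy (hb2.2 h)
    have g0 : Q (4, 0, j) (5, 0, j) (2, 0, 3 * j) := b0.2 hx
    have g1 : ¬ Q (4, 0, j) (5, 0, j) (2, 0, 3 * j + 1) := fun h => hy (b1.1 h)
    have g2 : Q (4, 0, j) (2, 0, 3 * j) (2, 0, 3 * j + 1) := b2.2 hz
    exact g1 (r2 g0 g2)

end To

end Pool.Agent.H243R3.SR
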