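import Pool.Agent.H243R3.SR.Defs

/-!
# Two perfect matchings are always rationalizable
-/

set_option autoImplicit false

namespace Pool.Agent.H243R3.SR

/-- The union of two involutions without fixed points is bipartite. -/
theorem two_col {S : Type} (m1 m2 : S → S) (i1 : ∀ a, m1 (m1 a) = a) (i2 : ∀ a, m2 (m2 a) = a)
    (n1 : ∀ a, m1 a ≠ a) (n2 : ∀ a, m2 a ≠ a) (e : S → ℕ) (he : Function.Injective e) :
    ∃ s : S → Bool, ∀ a, s (m1 a) = !s a ∧ s (m2 a) = !s a := by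
  classical
  let σ : Equiv.Perm S := ⟨fun a => m2 (m1 a), fun a => m1 (m2 a),
    fun a => by simp only [i2, i1], fun a => by simp only [i1, i2]⟩
  let τ : Equiv.Perm S := ⟨m1, m1, i1, i1⟩
  have hσ : ∀ a, σ a = m2 (m1 a) := fun _ => rfl
  have hσ' : ∀ a, σ⁻¹ a = m1 (m2 a) := fun _ => rfl
  have hτ : ∀ a, τ a = m1 a := fun _ => rfl
  have hτ' : τ⁻¹ = τ := by
    ext a; rfl
  have c1 : τ * σ * τ⁻¹ = σ⁻¹ := by
    ext a
    rw [hτ']
    simp only [Equiv.Perm.mul_apply, hτ, hσ, hσ', i1]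
  have conj : ∀ (k : ℤ) (a : S), m1 ((σ ^ k) a) = (σ ^ (-k)) (m1 a) := by
    intro k a
    have h : τ * σ ^ k * τ⁻¹ = (σ⁻¹) ^ k := by
      rw [← c1, conj_zpow]
    have h2 := congrArg (fun f : Equiv.Perm S => f (m1 a)) h
    simp only [Equiv.Perm.mul_apply, hτ', hτ, i1] at h2
    rw [h2, inv_zpow, zpow_neg]
  have key : ∀ (k : ℤ) (a : S), (σ ^ k) a ≠ m1 a := by
    intro k a h
    rcases Int.even_or_odd' k with ⟨j, rfl | rfl⟩
    · apply n1 ((σ ^ j) a)
      rw [conj, ← h, ← Equiv.Perm.mul_apply, ← zpow_add]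
      congr 2
      ring
    · have h3 : m1 ((σ ^ j) a) = σ ((σ ^ j) a) := by
        rw [conj, ← h, ← Equiv.Perm.mul_apply, ← zpow_add]
        have e1 : -j + (2 * j + 1) = 1 + j := by ring
        rw [e1, zpow_add, zpow_one, Equiv.Perm.mul_apply]
      rw [hσ] at h3
      exact n2 _ h3.symm
  let R : S → Set ℕ := fun a => {n | ∃ k : ℤ, e ((σ ^ k) a) = n}
  let r : S → ℕ := fun a => sInf (R a)
  have rne : ∀ a, (R a).Nonempty := fun a => ⟨e a, 0, by simp⟩
  have hr : ∀ a (k : ℤ), r ((σ ^ k) a) = r a := by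
    intro a k
    have : R ((σ ^ k) a) = R a := by
      ext n
      constructor
      · rintro ⟨l, hl⟩
        exact ⟨l + k, by rw [zpow_add, Equiv.Perm.mul_apply]; exact hl⟩
      · rintro ⟨l, hl⟩
        refine ⟨l - k, ?_⟩
        rw [← Equiv.Perm.mul_apply, ← zpow_add, sub_add_cancel]
        exact hl
    change sInf _ = sInf _
    rw [this]
  have hd : ∀ a, r a ≠ r (m1 a) := by
    intro a h
    obtain ⟨k, hk⟩ := Nat.sInf_mem (rne a)
    obtain ⟨l, hl⟩ := Nat.sInf_mem (rne (m1 a))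
    have h1 : e ((σ ^ k) a) = e ((σ ^ l) (m1 a)) := by rw [hk, hl]; exact h
    have h2 := he h1
    have h3 : (σ ^ (-l + k)) a = m1 a := by
      rw [zpow_add, Equiv.Perm.mul_apply, h2, ← Equiv.Perm.mul_apply, ← zpow_add]
      simp
    exact key _ a h3
  refine ⟨fun a => decide (r a < r (m1 a)), fun a => ?_⟩
  have hda := hd a
  have e2 : r (m2 a) = r (m1 a) := by
    have : m2 a = (σ ^ (1 : ℤ)) (m1 a) := by rw [zpow_one, hσ, i1]
    rw [this, hr]
  have e3 : r (m1 (m2 a)) = r a := by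
    have : m1 (m2 a) = (σ ^ (-1 : ℤ)) a := by rw [zpow_neg, zpow_one, hσ']
    rw [this, hr]
  have hb : decide (r (m1 a) < r a) = !decide (r a < r (m1 a)) := by
    by_cases h : r a < r (m1 a)
    · simp [h, h.le]
    · simp only [h, decide_false, Bool.not_false, decide_eq_true_eq]
      omega
  refine ⟨?_, ?_⟩
  · simp only [i1]
    exact hb
  · simp only [e2, e3]
    exact hb

theorem partner_unique {A : List ℕ} {M : List (ℕ × ℕ)} (hM : IsMatching A M) {a b c : ℕ}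
    (hb : Partner M a b) (hc : Partner M a c) : b = c := by
  obtain ⟨h1, -⟩ := hM
  rw [List.nodup_flatMap] at h1
  obtain ⟨h1, h2⟩ := h1
  have key : ∀ p ∈ M, ∀ q ∈ M, ∀ x, x ∈ [p.1, p.2] → x ∈ [q.1, q.2] → p = q := by
    intro p hp q hq x hx hx'
    by_contra hne
    have : Std.Symm (Function.onFun List.Disjoint fun p : ℕ × ℕ => [p.1, p.2]) :=
      ⟨fun u v h => List.Disjoint.symm h⟩
    have h3 := h2.forall hp hq hne
    exact h3 hx hx'
  have nd : ∀ p ∈ M, p.1 ≠ p.2 := by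
    intro p hp h
    have := h1 p hp
    rw [h] at this
    simp at this
  rcases hb with hb | hb <;> rcases hc with hc | hc
  · have := key _ hb _ hc a (by simp) (by simp)
    exact congrArg Prod.snd this
  · have h3 := key _ hb _ hc a (by simp) (by simp)
    have h4 := congrArg Prod.fst h3
    have h5 := congrArg Prod.snd h3
    simp only at h4 h5
    exact absurd h5.symm (by have := nd _ hb; simpa using this)
  · have h3 := key _ hb _ hc a (by simp) (by simp)
    have h4 := congrArg Prod.fst h3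
    have h5 := congrArg Prod.snd h3
    simp only at h4 h5
    exact absurd h4.symm (by have := nd _ hb; simpa using this.symm)
  · have := key _ hb _ hc a (by simp) (by simp)
    exact congrArg Prod.fst this

/-- **Two perfect matchings are always rationalizable.** -/
theorem two_rat {A : List ℕ} {M1 M2 : List (ℕ × ℕ)} (hA : A.Nodup) (h1 : IsMatching A M1)
    (h2 : IsMatching A M2) (p1 : ∀ a ∈ A, ∃ b, Partner M1 a b)
    (p2 : ∀ a ∈ A, ∃ b, Partner M2 a b) : Rationalizable (A, [M1, M2]) := by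
  classical
  have hmem : ∀ {M : List (ℕ × ℕ)}, IsMatching A M → ∀ {a b}, Partner M a b → b ∈ A := by
    intro M hM a b h
    rcases h with h | h
    · exact (hM.2 _ h).2
    · exact (hM.2 _ h).1
  have hsym : ∀ {M : List (ℕ × ℕ)} {a b}, Partner M a b → Partner M b a := by
    intro M a b h
    exact h.symm
  have hirr : ∀ {M : List (ℕ × ℕ)}, IsMatching A M → ∀ {a}, ¬ Partner M a a := by
    intro M hM a h
    have h3 := hM.1
    rw [List.nodup_flatMap] at h3
    have h4 : (a, a) ∈ M := by rcases h with h | h <;> exact h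
    have h5 := h3.1 _ h4
    simp at h5
  have mk : ∀ {M : List (ℕ × ℕ)}, IsMatching A M → (∀ a ∈ A, ∃ b, Partner M a b) →
      ∃ m : {a // a ∈ A} → {a // a ∈ A}, ∀ a, Partner M a.1 (m a).1 := by
    intro M hM hp
    choose f hf using hp
    exact ⟨fun a => ⟨f a.1 a.2, hmem hM (hf a.1 a.2)⟩, fun a => hf a.1 a.2⟩
  obtain ⟨m1, hm1⟩ := mk h1 p1
  obtain ⟨m2, hm2⟩ := mk h2 p2
  have i1 : ∀ a, m1 (m1 a) = a := fun a =>
    Subtype.ext (partner_unique h1 (hm1 (m1 a)) (hsym (hm1 a)))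
  have i2 : ∀ a, m2 (m2 a) = a := fun a =>
    Subtype.ext (partner_unique h2 (hm2 (m2 a)) (hsym (hm2 a)))
  have n1 : ∀ a, m1 a ≠ a := fun a h => hirr h1 (a := a.1) (by
    have := hm1 a; rw [h] at this; exact this)
  have n2 : ∀ a, m2 a ≠ a := fun a h => hirr h2 (a := a.1) (by
    have := hm2 a; rw [h] at this; exact this)
  obtain ⟨s, hs⟩ := two_col m1 m2 i1 i2 n1 n2 Subtype.val Subtype.val_injective
  let key : {a // a ∈ A} → {a // a ∈ A} → ℕ := fun a b =>
    if b = m1 a then (if s a = true then 0 else 1)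
    else if b = m2 a then (if s a = true then 1 else 0) else 2 + b.1
  have kc : ∀ a b, (b = m1 a ∧ key a b = if s a = true then 0 else 1) ∨
      (b ≠ m1 a ∧ b = m2 a ∧ key a b = if s a = true then 1 else 0) ∨
      (b ≠ m1 a ∧ b ≠ m2 a ∧ key a b = 2 + b.1) := by
    intro a b
    by_cases e1 : b = m1 a
    · exact Or.inl ⟨e1, by simp only [key, if_pos e1]⟩
    · by_cases e2 : b = m2 a
      · exact Or.inr (Or.inl ⟨e1, e2, by simp only [key, if_neg e1, if_pos e2]⟩)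
      · exact Or.inr (Or.inr ⟨e1, e2, by simp only [key, if_neg e1, if_neg e2]⟩)
  have kinj : ∀ a b c, key a b = key a c → b = c := by
    intro a b c h
    rcases kc a b with ⟨e1, k1⟩ | ⟨e1, e2, k1⟩ | ⟨e1, e2, k1⟩ <;>
      rcases kc a c with ⟨f1, k2⟩ | ⟨f1, f2, k2⟩ | ⟨f1, f2, k2⟩ <;> rw [k1, k2] at h
    · rw [e1, f1]
    · split_ifs at h <;> omega
    · split_ifs at h <;> omega
    · split_ifs at h <;> omega
    · rw [e2, f2]
    · split_ifs at h <;> omega
    · split_ifs at h <;> omega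
    · split_ifs at h <;> omega
    · apply Subtype.ext; omega
  refine ⟨hA, ?_, fun x y z => ∃ (hx : x ∈ A) (hy : y ∈ A) (hz : z ∈ A),
    key ⟨x, hx⟩ ⟨y, hy⟩ < key ⟨x, hx⟩ ⟨z, hz⟩, ⟨?_, ?_, ?_⟩, ?_⟩
  · intro M hM
    simp only [List.mem_cons, List.not_mem_nil, or_false] at hM
    rcases hM with rfl | rfl
    · exact h1
    · exact h2
  · rintro a _ b _ _ ⟨_, _, _, h⟩
    exact lt_irrefl _ h
  · rintro a _ b _ c _ d _ _ _ _ ⟨x1, x2, x3, h⟩ ⟨y1, y2, y3, h'⟩
    exact ⟨x1, x2, y3, lt_trans h h'⟩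
  · intro a ha b hb c hc _ _ hbc
    rcases lt_or_gt_of_ne (fun h => hbc (congrArg Subtype.val
      (kinj ⟨a, ha⟩ ⟨b, hb⟩ ⟨c, hc⟩ h))) with h | h
    · exact Or.inl ⟨ha, hb, hc, h⟩
    · exact Or.inr ⟨ha, hc, hb, h⟩
  · intro M hM
    simp only [List.mem_cons, List.not_mem_nil, or_false] at hM
    rintro a ha b hb ⟨hne, hnp, q1, q2⟩
    rcases hM with rfl | rfl
    · obtain ⟨_, _, _, g1⟩ := q1 _ (hm1 ⟨a, ha⟩)
      obtain ⟨_, _, _, g2⟩ := q2 _ (hm1 ⟨b, hb⟩)
      have w1 : key ⟨a, ha⟩ (m1 ⟨a, ha⟩) = if s ⟨a, ha⟩ = true then 0 else 1 := by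
        simp only [key, if_true]
      have w2 : key ⟨b, hb⟩ (m1 ⟨b, hb⟩) = if s ⟨b, hb⟩ = true then 0 else 1 := by
        simp only [key, if_true]
      have g1' : key ⟨a, ha⟩ ⟨b, hb⟩ < key ⟨a, ha⟩ (m1 ⟨a, ha⟩) := g1
      have g2' : key ⟨b, hb⟩ ⟨a, ha⟩ < key ⟨b, hb⟩ (m1 ⟨b, hb⟩) := g2
      rw [w1] at g1'
      rw [w2] at g2'
      have t1 : s ⟨a, ha⟩ ≠ true := fun h => by rw [if_pos h] at g1'; omega
      have t2 : s ⟨b, hb⟩ ≠ true := fun h => by rw [if_pos h] at g2'; omega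
      rw [if_neg t1] at g1'
      rcases kc ⟨a, ha⟩ ⟨b, hb⟩ with ⟨e1, k1⟩ | ⟨e1, e2, k1⟩ | ⟨e1, e2, k1⟩
      · apply hnp
        have := hm1 ⟨a, ha⟩
        rw [← e1] at this
        exact this
      · have h3 := (hs ⟨a, ha⟩).2
        rw [← e2] at h3
        rw [h3] at t2
        cases hsa : s ⟨a, ha⟩
        · rw [hsa] at t2; exact t2 rfl
        · exact t1 hsa
      · rw [k1] at g1'
        omega
    · obtain ⟨_, _, _, g1⟩ := q1 _ (hm2 ⟨a, ha⟩)
      obtain ⟨_, _, _, g2⟩ := q2 _ (hm2 ⟨b, hb⟩)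
      have g1' : key ⟨a, ha⟩ ⟨b, hb⟩ < key ⟨a, ha⟩ (m2 ⟨a, ha⟩) := g1
      have g2' : key ⟨b, hb⟩ ⟨a, ha⟩ < key ⟨b, hb⟩ (m2 ⟨b, hb⟩) := g2
      have hab2 : (⟨b, hb⟩ : {a // a ∈ A}) ≠ m2 ⟨a, ha⟩ := by
        intro h
        apply hnp
        have := hm2 ⟨a, ha⟩
        rw [← h] at this
        exact this
      have hba2 : (⟨a, ha⟩ : {a // a ∈ A}) ≠ m2 ⟨b, hb⟩ := by
        intro h
        apply hnp
        have := hm2 ⟨b, hb⟩
        rw [← h] at this
        exact hsym this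
      have u : ∀ x y : {a // a ∈ A}, y ≠ m2 x → key x y < key x (m2 x) →
          y = m1 x ∧ s x = true := by
        intro x y hxy hk
        rcases kc x y with ⟨e1, k1⟩ | ⟨e1, e2, k1⟩ | ⟨e1, e2, k1⟩
        · refine ⟨e1, ?_⟩
          by_contra hsx
          rw [k1, if_neg hsx] at hk
          rcases kc x (m2 x) with ⟨f1, k2⟩ | ⟨f1, f2, k2⟩ | ⟨f1, f2, k2⟩
          · rw [k2, if_neg hsx] at hk; omega
          · rw [k2, if_neg hsx] at hk; omega
          · exact f2 rfl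
        · exact absurd e2 hxy
        · rw [k1] at hk
          rcases kc x (m2 x) with ⟨f1, k2⟩ | ⟨f1, f2, k2⟩ | ⟨f1, f2, k2⟩
          · rw [k2] at hk; split_ifs at hk <;> omega
          · rw [k2] at hk; split_ifs at hk <;> omega
          · exact absurd rfl f2
      obtain ⟨v1, v2⟩ := u _ _ hab2 g1'
      obtain ⟨v3, v4⟩ := u _ _ hba2 g2'
      have h3 := (hs ⟨a, ha⟩).1
      rw [← v1, v4, v2] at h3
      exact absurd h3 (by decide)

end Pool.Agent.H243R3.SR
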